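import Mathlib

/-! The accelerated Collatz map and elementary facts on its iterates. -/

namespace H1Col

open Finset

/-- The accelerated Collatz map. -/
def T (x : ℕ) : ℕ := if x % 2 = 0 then x / 2 else (3 * x + 1) / 2

/-- Number of odd elements among `x, T x, ..., T^[N-1] x`. -/
def od (x : ℕ) : ℕ → ℕ
  | 0 => 0
  | N + 1 => od x N + (T^[N] x) % 2

theorem T_even {x : ℕ} (h : x % 2 = 0) : T x = x / 2 := by simp [T, h]

theorem T_odd {x : ℕ} (h : x % 2 = 1) : T x = (3 * x + 1) / 2 := by simp [T, h]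

theorem two_T_odd {x : ℕ} (h : x % 2 = 1) : 2 * T x = 3 * x + 1 := by
  rw [T_odd h]; omega

theorem two_T_even {x : ℕ} (h : x % 2 = 0) : 2 * T x = x := by
  rw [T_even h]; omega

theorem T_pos {x : ℕ} (h : 0 < x) : 0 < T x := by
  unfold T; split_ifs <;> omega

theorem iter_pos {x : ℕ} (h : 0 < x) (n : ℕ) : 0 < T^[n] x := by
  induction n with
  | zero => simpa using h
  | succ n ih => rw [Function.iterate_succ_apply']; exact T_pos ih

theorem le_two_T (x : ℕ) : x ≤ 2 * T x := by
  unfold T; split_ifs <;> omega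

theorem iter_succ (x n : ℕ) : T^[n + 1] x = T (T^[n] x) := Function.iterate_succ_apply' T n x

theorem iter_succ_left (x n : ℕ) : T^[n + 1] x = T^[n] (T x) := Function.iterate_succ_apply T n x

theorem iter_add (x m n : ℕ) : T^[m + n] x = T^[m] (T^[n] x) := Function.iterate_add_apply T m n x

@[simp] theorem od_zero (x : ℕ) : od x 0 = 0 := rfl

theorem od_succ (x N : ℕ) : od x (N + 1) = od x N + (T^[N] x) % 2 := rfl

theorem od_add (x m n : ℕ) : od x (m + n) = od x m + od (T^[m] x) n := by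
  induction n with
  | zero => simp
  | succ n ih =>
      rw [← Nat.add_assoc, od_succ, od_succ, ih, Nat.add_comm m n, iter_add]
      ring

theorem od_succ_left (x N : ℕ) : od x (N + 1) = x % 2 + od (T x) N := by
  rw [Nat.add_comm N 1, od_add]
  simp [od]

theorem od_le (x N : ℕ) : od x N ≤ N := by
  induction N with
  | zero => simp
  | succ n ih => rw [od_succ]; have := Nat.mod_lt (T^[n] x) (show 0 < 2 by norm_num); omega

/-- `3^od * x ≤ 2^N * T^[N] x`. -/
theorem three_pow_le (x N : ℕ) : 3 ^ od x N * x ≤ 2 ^ N * T^[N] x := by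
  induction N with
  | zero => simp
  | succ n ih =>
      rw [od_succ, iter_succ, pow_succ]
      rcases Nat.mod_two_eq_zero_or_one (T^[n] x) with h | h
      · rw [h, Nat.add_zero, Nat.mul_assoc, two_T_even h]; exact ih
      · rw [h, Nat.mul_assoc, two_T_odd h, pow_succ]
        nlinarith [ih, pow_pos (show 0 < 2 by norm_num) n]

/-- Sum of the `1/(3 x_i)` over the odd elements among the first `N`. -/
noncomputable def Sm (x N : ℕ) : ℝ :=
  ∑ i ∈ range N, if (T^[i] x) % 2 = 1 then 1 / (3 * ((T^[i] x : ℕ) : ℝ)) else 0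

theorem Sm_succ (x N : ℕ) : Sm x (N + 1) = Sm x N +
    if (T^[N] x) % 2 = 1 then 1 / (3 * ((T^[N] x : ℕ) : ℝ)) else 0 := by
  simp [Sm, sum_range_succ]

theorem Sm_nonneg (x N : ℕ) : 0 ≤ Sm x N := by
  unfold Sm
  apply sum_nonneg
  intro i _
  split_ifs
  · positivity
  · exact le_refl _

/-- `2^N * T^[N] x ≤ 3^od * x * exp (Sm x N)`. -/
theorem two_pow_le_exp {x : ℕ} (hx : 0 < x) (N : ℕ) :
    (2 : ℝ) ^ N * ((T^[N] x : ℕ) : ℝ) ≤ 3 ^ od x N * x * Real.exp (Sm x N) := by
  induction N with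
  | zero => simp [Sm]
  | succ n ih =>
      rw [od_succ, iter_succ, Sm_succ]
      have hp : 0 < T^[n] x := iter_pos hx n
      have hp' : (0 : ℝ) < ((T^[n] x : ℕ) : ℝ) := by exact_mod_cast hp
      rcases Nat.mod_two_eq_zero_or_one (T^[n] x) with h | h
      · have e : (2 : ℝ) * ((T (T^[n] x) : ℕ) : ℝ) = ((T^[n] x : ℕ) : ℝ) := by
          exact_mod_cast two_T_even h
        rw [h, if_neg (by norm_num), pow_succ, mul_assoc, e]
        simp only [add_zero]
        exact ih
      · have e : (2 : ℝ) * ((T (T^[n] x) : ℕ) : ℝ) = 3 * ((T^[n] x : ℕ) : ℝ) + 1 := by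
          exact_mod_cast two_T_odd h
        rw [h, if_pos rfl, pow_succ, mul_assoc, e, Real.exp_add, pow_succ]
        have h1 : 1 + 1 / (3 * ((T^[n] x : ℕ) : ℝ)) ≤ Real.exp (1 / (3 * ((T^[n] x : ℕ) : ℝ))) := by
          have := Real.add_one_le_exp (1 / (3 * ((T^[n] x : ℕ) : ℝ)))
          linarith
        have h2 : (2 : ℝ) ^ n * (3 * ((T^[n] x : ℕ) : ℝ) + 1)
            = 3 * ((2 : ℝ) ^ n * ((T^[n] x : ℕ) : ℝ)) * (1 + 1 / (3 * ((T^[n] x : ℕ) : ℝ))) := by
          field_simp
        rw [h2]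
        calc 3 * ((2 : ℝ) ^ n * ((T^[n] x : ℕ) : ℝ)) * (1 + 1 / (3 * ((T^[n] x : ℕ) : ℝ)))
            ≤ 3 * (3 ^ od x n * x * Real.exp (Sm x n)) *
              Real.exp (1 / (3 * ((T^[n] x : ℕ) : ℝ))) := by
              apply mul_le_mul _ h1 (by positivity) (by positivity)
              linarith
          _ = _ := by ring

end H1Col
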