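import Mathlib
import Pool.Agent.H1.Col.Basic

/-! The grid of levels `m i`, the 3-adic table `kap`, and the index map `J`. -/


namespace H1Col

/-- Kernel friendly bounded universal quantifier. -/
def allBelow (p : ℕ → Bool) (n : ℕ) : Bool :=
  @Nat.rec (fun _ => Bool) true (fun k ih => and (p k) ih) n

theorem allBelow_spec {p : ℕ → Bool} {n : ℕ} (h : allBelow p n = true) : ∀ k < n, p k = true := by
  induction n with
  | zero => intro k hk; omega
  | succ n ih =>
      have h' : (p n && allBelow p n) = true := h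
      rw [Bool.and_eq_true] at h'
      intro k hk
      rcases Nat.lt_succ_iff_lt_or_eq.mp hk with h1 | h1
      · exact ih h'.2 k h1
      · rw [h1]; exact h'.1

/-- Packed table of the 147 base levels (20 bits each). -/
def BASE : ℕ := 0x7f65d7ecc67e33b7d9bb7d0477c6de7bd817b42f7aae77a1ac7987b78f557863b77d2b7742676b2c7623d759597507f747b073eec7363272d82724de71c43713b370b2d702b26fa406f1d96e97c6e1296d8e06d0a16c86c6c0416b8206b0086a7fb69ff7697fc6900b688246804767872670a7668e66612e6597f651da64a3d642aa63b206339f62c27624b861d52615f560ea160756600135f8d95f1a85ea7f5e3605dc485d53a5ce335c7365c0405b9535b26f5ab925a4be59df25972f59073589c05831457c71575d656f42568b75623355bb75554454ed7548735421653bc15357452f2e528f0522b951c8a516625104150a28504174fe0c4f8094f20d4ec184e62b4e0454da654d48d4cebc4c8f24c32f4bd724b7bd4b20f4ac674a6c64a12c49b994960c4908748b074858f4801d47ab14754c46fee46a964654445ff945ab5455764503e44b0c445e1440bb43b9c436834317042c644275d4225c41d624186d4137f40e96409b3404d740000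

/-- Packed table of the 27 values of `kap` (10 bits each). -/
def KAP : ℕ := 0x24e59800549ee0025d5dc0096968001537b8007addf00197598005e9ed001f960800

def base (i : ℕ) : ℕ := Nat.land (Nat.shiftRight BASE (20 * i)) 1048575

/-- The grid of levels (scaled by `2^20`): `m (i + 147) = 2 * m i`. -/
def m (i : ℕ) : ℕ := Nat.shiftLeft (base (i % 147)) (i / 147)

/-- The 3-adic table. -/
def kap (r : ℕ) : ℕ := Nat.land (Nat.shiftRight KAP (10 * r)) 1023

/-- Thresholds of the index map. -/
def TH : List ℕ := [2169, 1195, 1048, 962, 901, 853, 814, 781, 752, 727, 704, 683, 664, 647, 631, 616, 601, 588, 575, 563, 552, 541, 531, 521, 511, 502, 493, 485, 477, 469, 461, 454, 446, 439, 432, 426, 419, 413, 407, 401, 395, 389, 384, 378, 373, 367, 362, 357, 352, 347, 342]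

/-- Number of thresholds above `i`. -/
def cnt (l : List ℕ) (i : ℕ) : ℕ :=
  @List.rec ℕ (fun _ => ℕ) 0 (fun t _ ih => bif Nat.ble (i + 1) t then ih + 1 else ih) l

/-- The index map: `α m i + β ≤ m (J i)` for `i ≥ 338`. -/
def J (i : ℕ) : ℕ := i + 86 + cnt TH i

theorem cnt_nil (i : ℕ) : cnt [] i = 0 := rfl

theorem cnt_cons (t : ℕ) (l : List ℕ) (i : ℕ) :
    cnt (t :: l) i = if i < t then cnt l i + 1 else cnt l i := by
  show (bif Nat.ble (i + 1) t then cnt l i + 1 else cnt l i) = _
  by_cases h : i < t
  · rw [if_pos h]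
    have : Nat.ble (i + 1) t = true := Nat.ble_eq.mpr h
    rw [this]; rfl
  · rw [if_neg h]
    have : Nat.ble (i + 1) t = false := by
      rw [Bool.eq_false_iff]
      intro hh
      exact h (Nat.ble_eq.mp hh)
    rw [this]; rfl

theorem cnt_eq_zero {l : List ℕ} {i : ℕ} (h : ∀ t ∈ l, t ≤ i) : cnt l i = 0 := by
  induction l with
  | nil => rfl
  | cons t l ih =>
      rw [cnt_cons, if_neg (by have := h t (by simp); omega)]
      exact ih (fun t ht => h t (by simp [ht]))

theorem cnt_TH_eq_zero {i : ℕ} (h : 2169 ≤ i) : cnt TH i = 0 := by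
  apply cnt_eq_zero
  have : ∀ t ∈ TH, t ≤ 2169 := by decide
  intro t ht
  exact le_trans (this t ht) h

theorem m_add (i : ℕ) : m (i + 147) = 2 * m i := by
  unfold m
  rw [Nat.add_mod_right, Nat.add_div_right _ (by norm_num)]
  simp only [Nat.shiftLeft_eq', Nat.shiftLeft_eq, pow_succ]
  ring

theorem base_step : ∀ k < 146, base k ≤ base (k + 1) := by
  have h : allBelow (fun k => Nat.ble (base k) (base (k + 1))) 146 = true := by decide +kernel
  intro k hk
  exact Nat.ble_eq.mp (allBelow_spec h k hk)

theorem base_wrap : base 146 ≤ 2 * base 0 := by decide +kernel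

theorem m_step (i : ℕ) : m i ≤ m (i + 1) := by
  have e : i = 147 * (i / 147) + i % 147 := (Nat.div_add_mod i 147).symm
  have hlt : i % 147 < 147 := Nat.mod_lt _ (by norm_num)
  rcases Nat.lt_or_ge (i % 147) 146 with h | h
  · have h1 : (i + 1) % 147 = i % 147 + 1 := by omega
    have h2 : (i + 1) / 147 = i / 147 := by omega
    unfold m
    rw [h1, h2]
    simp only [Nat.shiftLeft_eq', Nat.shiftLeft_eq]
    exact Nat.mul_le_mul_right _ (base_step _ h)
  · have h0 : i % 147 = 146 := by omega
    have h1 : (i + 1) % 147 = 0 := by omega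
    have h2 : (i + 1) / 147 = i / 147 + 1 := by omega
    unfold m
    rw [h0, h1, h2]
    simp only [Nat.shiftLeft_eq', Nat.shiftLeft_eq, pow_succ]
    have := base_wrap
    calc base 146 * 2 ^ (i / 147) ≤ (2 * base 0) * 2 ^ (i / 147) := Nat.mul_le_mul_right _ this
      _ = base 0 * (2 ^ (i / 147) * 2) := by ring

theorem m_mono : Monotone m := monotone_nat_of_le_succ m_step

/-- Numerator of `α = 1572865 / 2^20`. -/
def AN : ℕ := 1572865

theorem J_ok_small : ∀ i, 338 ≤ i → i < 2316 →
    1572865 * m i + 524290 * 1048576 ≤ 1048576 * m (J i) := by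
  have h : allBelow (fun k => Nat.ble (1572865 * m (338 + k) + 524290 * 1048576)
      (1048576 * m (J (338 + k)))) 1978 = true := by decide +kernel
  intro i h1 h2
  have := Nat.ble_eq.mp (allBelow_spec h (i - 338) (by omega))
  rw [show 338 + (i - 338) = i by omega] at this
  exact this

theorem J_ok : ∀ i, 338 ≤ i → 1572865 * m i + 524290 * 1048576 ≤ 1048576 * m (J i) := by
  intro i
  induction i using Nat.strong_induction_on with
  | _ i ih =>
    intro h1
    by_cases h2 : i < 2316
    · exact J_ok_small i h1 h2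
    · obtain ⟨j, rfl⟩ : ∃ j, i = j + 147 := ⟨i - 147, by omega⟩
      have h3 := ih j (by omega) (by omega)
      have e1 : J (j + 147) = J j + 147 := by
        unfold J
        rw [cnt_TH_eq_zero (by omega), cnt_TH_eq_zero (i := j) (by omega)]
      rw [e1, m_add, m_add]
      omega

theorem kap_bounds : ∀ r < 27, r % 3 ≠ 0 → 338 ≤ kap r ∧ kap r ≤ 605 := by
  have h : allBelow (fun r => (Nat.beq (r % 3) 0) || (Nat.ble 338 (kap r) && Nat.ble (kap r) 605)) 27
    = true := by decide +kernel
  intro r hr h3
  have := allBelow_spec h r hr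
  rw [Bool.or_eq_true, Bool.and_eq_true] at this
  rcases this with h | ⟨ha, hb⟩
  · exact absurd (Nat.eq_of_beq_eq_true h) h3
  · exact ⟨Nat.ble_eq.mp ha, Nat.ble_eq.mp hb⟩

end H1Col
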