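import Mathlib
import Pool.Agent.H1.Col.Basic
import Pool.Agent.H1.Col.Grid

/-! The potential function and telescoping. -/

namespace H1Col

open Finset

/-- `3/2 + 2^(-20)`. -/
noncomputable def al : ℝ := 1572865 / 1048576

/-- The potential with window `n` (scaled by `2^20`). -/
noncomputable def K : ℕ → ℕ → ℝ
  | 0, x => (m (kap (x % 27)) : ℝ)
  | n + 1, x => max (m (kap (x % 27)) : ℝ)
      (if x % 2 = 0 then 2 * K n (x / 2) else (K n (T x) - 524290) / al)

theorem al_pos : 0 < al := by unfold al; norm_num

theorem K_ge (n x : ℕ) : (m (kap (x % 27)) : ℝ) ≤ K n x := by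
  cases n with
  | zero => exact le_refl _
  | succ n => exact le_max_left _ _

theorem K_nonneg (n x : ℕ) : 0 ≤ K n x := le_trans (by positivity) (K_ge n x)

theorem K_succ_ge (n x : ℕ) : K n x ≤ K (n + 1) x := by
  induction n generalizing x with
  | zero => exact K_ge 1 x
  | succ n ih =>
      show max _ _ ≤ max _ _
      apply max_le_max (le_refl _)
      split_ifs
      · have := ih (x / 2); linarith
      · have := ih (T x)
        apply div_le_div_of_nonneg_right _ al_pos.le
        linarith

theorem K_mono {n n' : ℕ} (h : n ≤ n') (x : ℕ) : K n x ≤ K n' x := by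
  induction h with
  | refl => exact le_refl _
  | step _ ih => exact le_trans ih (K_succ_ge _ _)

/-- Length of the window of `x`. -/
def nx (x : ℕ) : ℕ := Nat.log 2 (x / 135)

theorem nx_eq {x a : ℕ} (h1 : 135 * 2 ^ a ≤ x) (h2 : x < 135 * 2 ^ (a + 1)) : nx x = a := by
  unfold nx
  rw [Nat.log_eq_iff (Or.inr ⟨by norm_num, ?_⟩)]
  · constructor
    · exact (Nat.le_div_iff_mul_le (by norm_num)).mpr (by linarith)
    · exact (Nat.div_lt_iff_lt_mul (by norm_num)).mpr (by linarith)
  · have : 135 * 1 ≤ 135 * 2 ^ a := Nat.mul_le_mul_left _ (Nat.one_le_two_pow)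
    have h3 : 0 < x / 135 := Nat.div_pos (by omega) (by norm_num)
    omega

theorem le_nx {x a : ℕ} (h1 : 135 * 2 ^ a ≤ x) : a ≤ nx x := by
  unfold nx
  apply Nat.le_log_of_pow_le (by norm_num)
  exact (Nat.le_div_iff_mul_le (by norm_num)).mpr (by linarith)

theorem nx_spec {x : ℕ} (h : 135 ≤ x) : 135 * 2 ^ nx x ≤ x ∧ x < 135 * 2 ^ (nx x + 1) := by
  unfold nx
  have h3 : x / 135 ≠ 0 := by
    have : 0 < x / 135 := Nat.div_pos h (by norm_num)
    omega
  constructor
  · have := Nat.pow_log_le_self 2 h3
    have h4 := (Nat.le_div_iff_mul_le (by norm_num)).mp this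
    linarith
  · have := Nat.lt_pow_succ_log_self (b := 2) (by norm_num) (x / 135)
    have h4 := (Nat.div_lt_iff_lt_mul (by norm_num)).mp this
    rw [Nat.mul_comm] at h4
    exact h4

theorem nx_T {x : ℕ} (h : 135 ≤ x) : nx x ≤ nx (T x) + 1 := by
  rcases Nat.eq_zero_or_pos (nx x) with h0 | h0
  · omega
  · have h1 := (nx_spec h).1
    have h2 : 135 * 2 ^ (nx x - 1) ≤ T x := by
      have e : 2 ^ nx x = 2 * 2 ^ (nx x - 1) := by
        rw [← pow_succ']; congr 1; omega
      have h3 := le_two_T x
      rw [e] at h1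
      have : 2 * (135 * 2 ^ (nx x - 1)) ≤ 2 * T x := by linarith
      omega
    have := le_nx h2
    omega

/-- What is needed at `x` (scaled): `K_0 (x) + [x odd] 2^20/3`. -/
noncomputable def Au (x : ℕ) : ℝ :=
  (m (kap (x % 27)) : ℝ) + (if x % 2 = 0 then 0 else 1048576 / 3)

/-- What comes from the future, window `n`. -/
noncomputable def De (n x : ℕ) : ℝ := if x % 2 = 0 then 2 * K n (x / 2) else K n (T x) / al

/-- The price of `x`. -/
noncomputable def wp (x : ℕ) : ℝ := max 0 (Au x - De (nx x - 1) x)

theorem wp_nonneg (x : ℕ) : 0 ≤ wp x := le_max_left _ _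

theorem pointwise {x : ℕ} (hx : 566231040 ≤ x) :
    K (nx x) x / x + 1048576 * (if x % 2 = 1 then 1 / (3 * (x : ℝ)) else 0)
      ≤ K (nx (T x)) (T x) / (T x : ℕ) + wp x / x := by
  have ha : 22 ≤ nx x := le_nx (by norm_num; exact hx)
  obtain ⟨a, ha'⟩ : ∃ a, nx x = a + 1 := ⟨nx x - 1, by omega⟩
  have hn : a ≤ nx (T x) := by
    have := nx_T (x := x) (by omega)
    omega
  have hK := K_mono hn (T x)
  have hxp : (0 : ℝ) < x := by exact_mod_cast (by omega : 0 < x)
  have hw1 := le_max_left 0 (Au x - De (nx x - 1) x)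
  have hw2 := le_max_right 0 (Au x - De (nx x - 1) x)
  change 0 ≤ wp x at hw1
  change Au x - De (nx x - 1) x ≤ wp x at hw2
  rw [ha'] at hw2 ⊢
  simp only [Nat.add_sub_cancel] at hw2
  rcases Nat.mod_two_eq_zero_or_one x with h | h
  · -- even
    have e2 : ((T x : ℕ) : ℝ) * 2 = x := by
      have := two_T_even h
      have h' : T x * 2 = x := by omega
      exact_mod_cast h'
    have hT : ((T x : ℕ) : ℝ) = x / 2 := by linarith
    have hTx : T x = x / 2 := T_even h
    rw [if_neg (by omega), mul_zero, add_zero, hT]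
    have key : K (a + 1) x ≤ 2 * K (nx (T x)) (T x) + wp x := by
      show max _ _ ≤ _
      rw [if_pos h, ← hTx]
      apply max_le
      · simp only [Au, De, if_pos h, add_zero] at hw2
        rw [← hTx] at hw2
        linarith
      · linarith
    have : K (nx (T x)) (T x) / (x / 2) = (2 * K (nx (T x)) (T x)) / x := by
      field_simp
    rw [this, ← add_div]
    exact div_le_div_of_nonneg_right key hxp.le
  · -- odd
    have e2 : ((T x : ℕ) : ℝ) * 2 = 3 * x + 1 := by
      have := two_T_odd h
      have h' : T x * 2 = 3 * x + 1 := by omega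
      exact_mod_cast h'
    have hTp : (0 : ℝ) < ((T x : ℕ) : ℝ) := by nlinarith
    have hne : ¬ x % 2 = 0 := by omega
    rw [if_pos h]
    have key : K (a + 1) x + 1048576 / 3 ≤ K (nx (T x)) (T x) / al + wp x := by
      have h1 : K (a + 1) x ≤ max (m (kap (x % 27)) : ℝ) ((K a (T x) - 524290) / al) := by
        show max _ _ ≤ _
        rw [if_neg hne]
      have hdiv : K a (T x) / al ≤ K (nx (T x)) (T x) / al :=
        div_le_div_of_nonneg_right hK al_pos.le
      have h2 : max (m (kap (x % 27)) : ℝ) ((K a (T x) - 524290) / al) + 1048576 / 3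
          ≤ K (nx (T x)) (T x) / al + wp x := by
        rw [← le_sub_iff_add_le]
        apply max_le
        · simp only [Au, De, if_neg hne] at hw2
          linarith
        · have : (K a (T x) - 524290) / al = K a (T x) / al - 524290 / al := by ring
          rw [this]
          have h3 : (1048576 : ℝ) / 3 ≤ 524290 / al := by unfold al; norm_num
          linarith
      linarith
    have hle : K (nx (T x)) (T x) / al / x ≤ K (nx (T x)) (T x) / (T x : ℕ) := by
      rw [div_div]
      apply div_le_div_of_nonneg_left (K_nonneg _ _) hTp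
      have hx' : (566231040 : ℝ) ≤ x := by exact_mod_cast hx
      unfold al
      nlinarith
    have e3 : (1048576 : ℝ) * (1 / (3 * x)) = (1048576 / 3) / x := by
      field_simp
    rw [e3, ← add_div]
    calc (K (a + 1) x + 1048576 / 3) / x ≤ (K (nx (T x)) (T x) / al + wp x) / x :=
          div_le_div_of_nonneg_right key hxp.le
      _ = K (nx (T x)) (T x) / al / x + wp x / x := by rw [add_div]
      _ ≤ _ := by linarith

theorem telescope (x N : ℕ) (h : ∀ i < N, 566231040 ≤ T^[i] x) :
    K (nx x) x / x + 1048576 * Sm x N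
      ≤ K (nx (T^[N] x)) (T^[N] x) / (T^[N] x : ℕ) + ∑ i ∈ range N, wp (T^[i] x) / (T^[i] x : ℕ) := by
  induction N with
  | zero => simp [Sm]
  | succ n ih =>
      have h1 := ih (fun i hi => h i (by omega))
      have h2 := pointwise (h n (by omega))
      rw [Sm_succ, sum_range_succ, iter_succ]
      linarith

/-- Windows inside `[B, ∞)` have small `K / x`. -/
theorem K_div_le {n x : ℕ} (hu : x % 3 ≠ 0) (h : ∀ i ≤ n, 566231040 ≤ T^[i] x) :
    K n x / x ≤ (m 605 : ℝ) / 566231040 := by
  induction n generalizing x with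
  | zero =>
      have h0 := h 0 (le_refl _)
      simp only [Function.iterate_zero, id_eq] at h0
      have h0' : (566231040 : ℝ) ≤ x := by exact_mod_cast h0
      have hk : (m (kap (x % 27)) : ℝ) ≤ m 605 := by
        exact_mod_cast m_mono (kap_bounds (x % 27) (Nat.mod_lt _ (by norm_num)) (by omega)).2
      show (m (kap (x % 27)) : ℝ) / x ≤ _
      calc (m (kap (x % 27)) : ℝ) / x ≤ (m 605 : ℝ) / x :=
            div_le_div_of_nonneg_right hk (by positivity)
        _ ≤ _ := div_le_div_of_nonneg_left (by positivity) (by norm_num) h0'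
  | succ n ih =>
      have h0 := h 0 (by omega)
      simp only [Function.iterate_zero, id_eq] at h0
      have h0' : (566231040 : ℝ) ≤ x := by exact_mod_cast h0
      have hxp : (0 : ℝ) < x := by linarith
      have hk : (m (kap (x % 27)) : ℝ) ≤ m 605 := by
        exact_mod_cast m_mono (kap_bounds (x % 27) (Nat.mod_lt _ (by norm_num)) (by omega)).2
      have hT : ∀ i ≤ n, 566231040 ≤ T^[i] (T x) := by
        intro i hi
        rw [← iter_succ_left]
        exact h (i + 1) (by omega)
      have huT : T x % 3 ≠ 0 := by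
        rcases Nat.mod_two_eq_zero_or_one x with e | e
        · rw [T_even e]; omega
        · rw [T_odd e]; omega
      have h1 := ih huT hT
      have hb : (m (kap (x % 27)) : ℝ) / x ≤ (m 605 : ℝ) / 566231040 := by
        calc (m (kap (x % 27)) : ℝ) / x ≤ (m 605 : ℝ) / x :=
              div_le_div_of_nonneg_right hk (by positivity)
          _ ≤ _ := div_le_div_of_nonneg_left (by positivity) (by norm_num) h0'
      rw [div_le_iff₀ hxp] at hb ⊢
      show max _ _ ≤ _
      apply max_le hb
      rcases Nat.mod_two_eq_zero_or_one x with e | e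
      · rw [if_pos e, ← T_even e]
        have e2 : ((T x : ℕ) : ℝ) * 2 = x := by
          have := two_T_even e
          have h' : T x * 2 = x := by omega
          exact_mod_cast h'
        have hTp : (0 : ℝ) < ((T x : ℕ) : ℝ) := by linarith
        rw [div_le_iff₀ hTp] at h1
        nlinarith
      · rw [if_neg (by omega)]
        have e2 : ((T x : ℕ) : ℝ) * 2 = 3 * x + 1 := by
          have := two_T_odd e
          have h' : T x * 2 = 3 * x + 1 := by omega
          exact_mod_cast h'
        have hTp : (0 : ℝ) < ((T x : ℕ) : ℝ) := by nlinarith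
        rw [div_le_iff₀ hTp] at h1
        rw [div_le_iff₀ al_pos]
        have hM : (0 : ℝ) ≤ (m 605 : ℝ) / 566231040 := by positivity
        have h3 : (m 605 : ℝ) / 566231040 * ((T x : ℕ) : ℝ) ≤ (m 605 : ℝ) / 566231040 * x * al := by
          rw [mul_assoc]
          apply mul_le_mul_of_nonneg_left _ hM
          unfold al
          nlinarith
        linarith

/-- A descent below `B` within the window has few odd steps. -/
theorem short_descent {x t : ℕ} (hx : 566231040 ≤ x) (ht : t ≤ nx x)
    (h : ∀ i < t, 566231040 ≤ T^[i] x) (hlast : T^[t] x < 566231040) :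
    Sm x t ≤ 14 / (3 * 566231040) := by
  have h1 := three_pow_le x t
  have h2 := (nx_spec (x := x) (by omega)).1
  have h3 : 3 ^ od x t < 2 ^ 22 := by
    have h4 : 3 ^ od x t * (135 * 2 ^ t) ≤ 3 ^ od x t * x := by
      apply Nat.mul_le_mul_left
      refine le_trans ?_ h2
      exact Nat.mul_le_mul_left _ (Nat.pow_le_pow_right (by norm_num) ht)
    have h5 : 2 ^ t * T^[t] x < 2 ^ t * (135 * 2 ^ 22) :=
      Nat.mul_lt_mul_of_pos_left (by norm_num; exact hlast) (by positivity)
    have h6 : (135 * 2 ^ t) * 3 ^ od x t < (135 * 2 ^ t) * 2 ^ 22 := by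
      calc (135 * 2 ^ t) * 3 ^ od x t = 3 ^ od x t * (135 * 2 ^ t) := by ring
        _ ≤ 3 ^ od x t * x := h4
        _ ≤ 2 ^ t * T^[t] x := h1
        _ < 2 ^ t * (135 * 2 ^ 22) := h5
        _ = (135 * 2 ^ t) * 2 ^ 22 := by ring
    exact lt_of_mul_lt_mul_left h6 (by positivity)
  have h4 : od x t ≤ 13 := by
    by_contra hc
    push Not at hc
    have : 3 ^ 14 ≤ 3 ^ od x t := Nat.pow_le_pow_right (by norm_num) hc
    norm_num at this h3
    omega
  -- bound the sum by od / (3B)
  have h5 : ∀ s ≤ t, Sm x s ≤ (od x s : ℝ) / (3 * 566231040) := by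
    intro s
    induction s with
    | zero => intro _; simp [Sm]
    | succ n ih =>
        intro hs
        have h6 := ih (by omega)
        have h7 := h n (by omega)
        have h7' : (566231040 : ℝ) ≤ ((T^[n] x : ℕ) : ℝ) := by exact_mod_cast h7
        rw [Sm_succ, od_succ]
        rcases Nat.mod_two_eq_zero_or_one (T^[n] x) with e | e
        · rw [e, if_neg (by norm_num)]
          simpa using h6
        · rw [e, if_pos rfl]
          push_cast
          have h8 : 1 / (3 * ((T^[n] x : ℕ) : ℝ)) ≤ 1 / (3 * 566231040) := by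
            apply one_div_le_one_div_of_le (by norm_num)
            linarith
          rw [add_div]
          linarith
  have h6 := h5 t (le_refl _)
  have h7 : (od x t : ℝ) ≤ 13 := by exact_mod_cast h4
  have h8 : (od x t : ℝ) / (3 * 566231040) ≤ 14 / (3 * 566231040) := by
    apply div_le_div_of_nonneg_right _ (by norm_num)
    linarith
  linarith

end H1Col
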