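import Mathlib
import Pool.Agent.H1.Col.Potential

/-! Counting residue classes and block sums. -/

namespace H1Col

open Finset
open scoped Classical

theorem T_add_mul (x k : ℕ) : T (x + 2 * k) = if x % 2 = 0 then T x + k else T x + 3 * k := by
  unfold T
  rcases Nat.mod_two_eq_zero_or_one x with h | h
  · rw [if_pos (by omega), if_pos h, if_pos h]; omega
  · rw [if_neg (by omega), if_neg (by omega), if_neg (by omega)]; omega

theorem K_period (n : ℕ) : ∀ x k, K n (x + 27 * 2 ^ n * k) = K n x := by
  induction n with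
  | zero =>
      intro x k
      show (m (kap ((x + 27 * 2 ^ 0 * k) % 27)) : ℝ) = m (kap (x % 27))
      congr 3
      omega
  | succ n ih =>
      intro x k
      have e : 27 * 2 ^ (n + 1) * k = 2 * (27 * 2 ^ n * k) := by rw [pow_succ]; ring
      have h27 : (x + 27 * 2 ^ (n + 1) * k) % 27 = x % 27 := by
        rw [show 27 * 2 ^ (n + 1) * k = 27 * (2 ^ (n + 1) * k) by ring, Nat.add_mul_mod_self_left]
      have h2 : (x + 27 * 2 ^ (n + 1) * k) % 2 = x % 2 := by rw [e]; omega
      have hd : (x + 27 * 2 ^ (n + 1) * k) / 2 = x / 2 + 27 * 2 ^ n * k := by rw [e]; omega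
      show max _ _ = max _ _
      rw [h27, h2, hd]
      congr 1
      split_ifs with h
      · rw [ih]
      · have hT : T (x + 27 * 2 ^ (n + 1) * k) = T x + 27 * 2 ^ n * (3 * k) := by
          rw [e, T_add_mul, if_neg h]; ring
        rw [hT, ih]

theorem K_period' {n x y : ℕ} (h : x ≡ y [MOD 27 * 2 ^ n]) : K n x = K n y := by
  have h1 : K n x = K n (x % (27 * 2 ^ n)) := by
    conv_lhs => rw [← Nat.mod_add_div x (27 * 2 ^ n)]
    rw [K_period]
  have h2 : K n y = K n (y % (27 * 2 ^ n)) := by
    conv_lhs => rw [← Nat.mod_add_div y (27 * 2 ^ n)]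
    rw [K_period]
  rw [h1, h2, h]

/-- Number of classes modulo `27 * 2^n` in the class `r` modulo `27` with `K n x < m i`. -/
noncomputable def D (n r i : ℕ) : ℕ :=
  ((range (27 * 2 ^ n)).filter (fun x => x % 27 = r ∧ K n x < m i)).card

def T0 (r : ℕ) : ℕ := (14 * r) % 27
def T1 (r : ℕ) : ℕ := (14 * (3 * r + 1)) % 27

noncomputable def DE (n r i : ℕ) : ℕ :=
  ((range (27 * 2 ^ (n + 1))).filter (fun x => x % 27 = r ∧ x % 2 = 0 ∧ K n (T x) < m i)).card

noncomputable def DO (n r i : ℕ) : ℕ :=
  ((range (27 * 2 ^ (n + 1))).filter (fun x => x % 27 = r ∧ x % 2 = 1 ∧ K n (T x) < m i)).card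

theorem DE_le (n r i : ℕ) : DE n r i ≤ D n (T0 r) i := by
  unfold DE D
  apply card_le_card_of_injOn (fun x => x / 2)
  · intro x hx
    simp only [coe_filter, mem_range, Set.mem_setOf_eq] at hx ⊢
    obtain ⟨h1, h2, h3, h4⟩ := hx
    rw [pow_succ] at h1
    refine ⟨by omega, ?_, ?_⟩
    · unfold T0; omega
    · rw [T_even h3] at h4; exact h4
  · intro x hx y hy hxy
    simp only [coe_filter, mem_range, Set.mem_setOf_eq] at hx hy hxy
    omega

theorem DO_le (n r i : ℕ) : DO n r i ≤ D n (T1 r) i := by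
  unfold DO D
  apply card_le_card_of_injOn (fun x => (T x) % (27 * 2 ^ n))
  · intro x hx
    simp only [coe_filter, mem_range, Set.mem_setOf_eq] at hx ⊢
    obtain ⟨h1, h2, h3, h4⟩ := hx
    refine ⟨Nat.mod_lt _ (by positivity), ?_, ?_⟩
    · rw [Nat.mod_mul_right_mod]
      have := two_T_odd h3
      unfold T1
      omega
    · rw [K_period' (Nat.mod_modEq (T x) (27 * 2 ^ n))]
      exact h4
  · intro x hx y hy hxy
    simp only [coe_filter, mem_range, Set.mem_setOf_eq] at hx hy hxy
    obtain ⟨h1, h2, h3, h4⟩ := hx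
    obtain ⟨g1, g2, g3, g4⟩ := hy
    have e1 : T x ≡ T y [MOD 27 * 2 ^ n] := hxy
    have e2 : T x ≡ T y [MOD 2 ^ n] := e1.of_mul_left 27
    have e3 : 2 * T x ≡ 2 * T y [MOD 2 * 2 ^ n] := e2.mul_left' 2
    rw [two_T_odd h3, two_T_odd g3] at e3
    have e4 : 3 * x ≡ 3 * y [MOD 2 * 2 ^ n] := Nat.ModEq.add_right_cancel' 1 e3
    have e5 : x ≡ y [MOD 2 * 2 ^ n] := by
      apply Nat.ModEq.cancel_left_of_coprime _ e4
      have : Nat.Coprime (2 * 2 ^ n) 3 := by
        rw [← pow_succ']
        exact Nat.Coprime.pow_left _ (by norm_num)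
      exact this
    have e6 : x ≡ y [MOD 27] := by
      show x % 27 = y % 27
      rw [h2, g2]
    have e7 : x ≡ y [MOD 27 * (2 * 2 ^ n)] := by
      apply (Nat.modEq_and_modEq_iff_modEq_mul ?_).mp ⟨e6, e5⟩
      rw [← pow_succ']
      exact Nat.Coprime.pow_right _ (by norm_num)
    rw [← pow_succ'] at e7
    have e8 : x % (27 * 2 ^ (n + 1)) = y % (27 * 2 ^ (n + 1)) := e7
    rwa [Nat.mod_eq_of_lt h1, Nat.mod_eq_of_lt g1] at e8

theorem D_zero_le {r i : ℕ} : D 0 r i ≤ if kap r < i then 1 else 0 := by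
  unfold D
  split_ifs with h
  · apply card_le_one.mpr
    intro x hx y hy
    simp only [mem_filter, mem_range] at hx hy
    omega
  · rw [Nat.le_zero, card_eq_zero, filter_eq_empty_iff]
    intro x _ hc
    obtain ⟨h1, h2⟩ := hc
    have : (m i : ℝ) ≤ m (kap r) := by exact_mod_cast m_mono (by omega)
    change (m (kap (x % 27)) : ℝ) < m i at h2
    rw [h1] at h2
    linarith

theorem D_succ_le {n r i : ℕ} (hr : r < 27) (hu : r % 3 ≠ 0) :
    D (n + 1) r i ≤ if kap r < i then D n (T0 r) (i - 147) + D n (T1 r) (J i) else 0 := by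
  split_ifs with h
  · have hk := (kap_bounds r hr hu).1
    refine le_trans ?_ (Nat.add_le_add (DE_le n r (i - 147)) (DO_le n r (J i)))
    unfold D DE DO
    refine le_trans (card_le_card ?_) (card_union_le _ _)
    intro x hx
    simp only [mem_filter, mem_range, mem_union] at hx ⊢
    obtain ⟨h1, h2, h3⟩ := hx
    have h4 := lt_of_le_of_lt (le_max_right (m (kap (x % 27)) : ℝ)
      (if x % 2 = 0 then 2 * K n (x / 2) else (K n (T x) - 524290) / al)) h3
    rcases Nat.mod_two_eq_zero_or_one x with e | e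
    · left
      refine ⟨h1, h2, e, ?_⟩
      rw [if_pos e, ← T_even e] at h4
      have h5 : m i = 2 * m (i - 147) := by
        conv_lhs => rw [show i = (i - 147) + 147 by omega]
        rw [m_add]
      rw [h5] at h4
      push_cast at h4
      linarith
    · right
      refine ⟨h1, h2, e, ?_⟩
      rw [if_neg (by omega), div_lt_iff₀ al_pos] at h4
      have h5 := J_ok i (by omega)
      have h6 : (1572865 : ℝ) * m i + 524290 * 1048576 ≤ 1048576 * m (J i) := by exact_mod_cast h5
      unfold al at h4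
      linarith
  · unfold D
    rw [Nat.le_zero, card_eq_zero, filter_eq_empty_iff]
    intro x _ hc
    obtain ⟨h1, h2⟩ := hc
    have : (m i : ℝ) ≤ m (kap r) := by exact_mod_cast m_mono (by omega)
    have h3 := K_ge (n + 1) x
    rw [h1] at h3
    linarith

/-- Sums of `1/x` over a periodic set. -/
theorem periodic_sum {P : ℕ → Prop} {N X : ℕ} (hN : 0 < N) (hX : 0 < X)
    (hP : Function.Periodic P N) (k : ℕ) :
    ∑ x ∈ (Ico X (X + k * N)).filter P, (1 : ℝ) / x
      ≤ (((range N).filter P).card : ℝ) * ∑ t ∈ range k, 1 / ((X : ℝ) + t * N) := by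
  induction k with
  | zero => simp
  | succ k ih =>
      have hu : Ico X (X + (k + 1) * N) = Ico X (X + k * N) ∪ Ico (X + k * N) (X + k * N + N) := by
        rw [Ico_union_Ico_eq_Ico (by nlinarith) (by omega)]
        congr 1
        ring
      rw [hu, filter_union, sum_union, sum_range_succ, mul_add]
      · apply add_le_add ih
        have hc : ((Ico (X + k * N) (X + k * N + N)).filter P).card = ((range N).filter P).card := by
          rw [Nat.filter_Ico_card_eq_of_periodic _ _ _ hP, Nat.count_eq_card_filter_range]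
        rw [← hc, ← nsmul_eq_mul]
        apply sum_le_card_nsmul
        intro x hx
        simp only [mem_filter, mem_Ico] at hx
        have h1 : ((X + k * N : ℕ) : ℝ) ≤ x := by exact_mod_cast hx.1.1
        push_cast at h1
        apply one_div_le_one_div_of_le _ h1
        positivity
      · apply disjoint_filter_filter
        rw [disjoint_left]
        intro x hx hy
        simp only [mem_Ico] at hx hy
        omega

end H1Col
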