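import Mathlib
import Pool.Agent.H1.Col.Count

/-! The price of one block. -/

namespace H1Col

open Finset
open scoped Classical

theorem layer_cake {g : ℕ → ℝ} (hg : Monotone g) {A X : ℝ} {s : ℕ} (hs : g s ≤ X) :
    ∀ t, s ≤ t → min A (g t) - X ≤
      ∑ i ∈ Ico s t, (min A (g (i + 1)) - min A (g i)) * (if X < g (i + 1) then 1 else 0) := by
  intro t ht
  induction t, ht using Nat.le_induction with
  | base =>
      simp only [Ico_self, sum_empty]
      have := min_le_right A (g s)
      linarith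
  | succ t ht ih =>
      rw [sum_Ico_succ_top ht]
      have hnn : ∀ i, 0 ≤ (min A (g (i + 1)) - min A (g i)) := by
        intro i
        have := min_le_min_left A (hg (Nat.le_succ i))
        simp only [Nat.succ_eq_add_one] at this
        linarith
      by_cases h : X < g (t + 1)
      · rw [if_pos h]; linarith
      · rw [if_neg h]
        have h1 := min_le_right A (g (t + 1))
        have h2 : 0 ≤ ∑ i ∈ Ico s t, (min A (g (i + 1)) - min A (g i)) *
            (if X < g (i + 1) then (1 : ℝ) else 0) := by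
          apply sum_nonneg
          intro i _
          apply mul_nonneg (hnn i)
          split_ifs <;> norm_num
        linarith

/-- Levels transported through one step. -/
noncomputable def g (e i : ℕ) : ℝ := if e = 0 then 2 * (m i : ℝ) else (m i : ℝ) / al

noncomputable def Aur (r e : ℕ) : ℝ := (m (kap r) : ℝ) + (if e = 0 then 0 else 1048576 / 3)

noncomputable def Wt (r e i : ℕ) : ℝ := min (Aur r e) (g e (i + 1)) - min (Aur r e) (g e i)

def T' (r e : ℕ) : ℕ := if e = 0 then T0 r else T1 r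

theorem g_mono (e : ℕ) : Monotone (g e) := by
  intro i j h
  have : (m i : ℝ) ≤ m j := by exact_mod_cast m_mono h
  unfold g
  split_ifs
  · linarith
  · exact div_le_div_of_nonneg_right this al_pos.le

theorem Wt_nonneg (r e i : ℕ) : 0 ≤ Wt r e i := by
  have := min_le_min_left (Aur r e) (g_mono e (Nat.le_succ i))
  simp only [Nat.succ_eq_add_one] at this
  unfold Wt
  linarith

theorem m_900 : 3 * m 605 ≤ m 900 := by decide +kernel

theorem Aur_le {r e : ℕ} (hr : r < 27) (hu : r % 3 ≠ 0) : Aur r e ≤ g e 900 := by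
  have h1 : (m (kap r) : ℝ) ≤ m 605 := by exact_mod_cast m_mono (kap_bounds r hr hu).2
  have h2 : (3 : ℝ) * m 605 ≤ m 900 := by exact_mod_cast m_900
  have h3 : (1048576 : ℝ) ≤ m 605 := by
    have : 1048576 ≤ m 605 := by decide +kernel
    exact_mod_cast this
  unfold Aur g
  split_ifs
  · linarith
  · rw [le_div_iff₀ al_pos]
    unfold al
    linarith

theorem T_mod27 (x : ℕ) : T x % 27 = T' (x % 27) (x % 2) := by
  unfold T' T0 T1
  rcases Nat.mod_two_eq_zero_or_one x with h | h
  · rw [h, if_pos rfl, T_even h]; omega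
  · rw [h, if_neg (by norm_num)]
    have := two_T_odd h
    omega

theorem wp_le {x : ℕ} (hu : x % 3 ≠ 0) :
    wp x ≤ ∑ i ∈ Ico (kap (T' (x % 27) (x % 2))) 900,
      Wt (x % 27) (x % 2) i * (if K (nx x - 1) (T x) < m (i + 1) then 1 else 0) := by
  set r := x % 27 with hr
  set e := x % 2 with he
  have hr27 : r < 27 := Nat.mod_lt _ (by norm_num)
  have hru : r % 3 ≠ 0 := by omega
  have hT : T x % 27 = T' r e := T_mod27 x
  have hTu : T x % 3 ≠ 0 := by
    rcases Nat.mod_two_eq_zero_or_one x with h | h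
    · rw [T_even h]; omega
    · rw [T_odd h]; omega
  have hkb := kap_bounds (T x % 27) (Nat.mod_lt _ (by norm_num)) (by omega)
  rw [hT] at hkb
  have hA : Au x = Aur r e := by
    unfold Au Aur
    rfl
  have hD : De (nx x - 1) x = if e = 0 then 2 * K (nx x - 1) (T x) else K (nx x - 1) (T x) / al := by
    unfold De
    rcases Nat.mod_two_eq_zero_or_one x with h | h
    · rw [if_pos h, he, if_pos h, T_even h]
    · rw [if_neg (by omega), he, if_neg (by omega)]
  have hKge := K_ge (nx x - 1) (T x)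
  rw [hT] at hKge
  have hs : g e (kap (T' r e)) ≤ De (nx x - 1) x := by
    rw [hD]
    unfold g
    split_ifs
    · linarith
    · exact div_le_div_of_nonneg_right hKge al_pos.le
  have hlc := layer_cake (g_mono e) (A := Aur r e) hs 900 (by omega)
  rw [min_eq_left (Aur_le hr27 hru)] at hlc
  have hcond : ∀ i, (De (nx x - 1) x < g e (i + 1)) ↔ K (nx x - 1) (T x) < m (i + 1) := by
    intro i
    rw [hD]
    unfold g
    split_ifs
    · constructor <;> intro h <;> linarith
    · constructor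
      · intro h
        rwa [div_lt_div_iff_of_pos_right al_pos] at h
      · intro h
        rwa [div_lt_div_iff_of_pos_right al_pos]
  unfold wp
  rw [hA]
  apply max_le
  · apply sum_nonneg
    intro i _
    apply mul_nonneg (Wt_nonneg _ _ _)
    split_ifs <;> norm_num
  · refine le_trans hlc (le_of_eq ?_)
    apply sum_congr rfl
    intro i _
    unfold Wt
    congr 1
    by_cases h : De (nx x - 1) x < g e (i + 1)
    · rw [if_pos h, if_pos ((hcond i).mp h)]
    · rw [if_neg h, if_neg (fun hc => h ((hcond i).mpr hc))]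

/-- The predicate counted. -/
def PP (n r e i : ℕ) (x : ℕ) : Prop := x % 27 = r ∧ x % 2 = e ∧ K n (T x) < m i

theorem PP_periodic (n r e i : ℕ) : Function.Periodic (PP n r e i) (27 * 2 ^ (n + 1)) := by
  intro x
  have e1 : 27 * 2 ^ (n + 1) = 2 * (27 * 2 ^ n) := by rw [pow_succ]; ring
  have h1 : (x + 27 * 2 ^ (n + 1)) % 27 = x % 27 := by rw [Nat.add_mul_mod_self_left]
  have h2 : (x + 27 * 2 ^ (n + 1)) % 2 = x % 2 := by rw [e1]; omega
  have h3 : K n (T (x + 27 * 2 ^ (n + 1))) = K n (T x) := by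
    rw [e1, T_add_mul]
    split_ifs
    · have := K_period n (T x) 1
      rwa [mul_one] at this
    · have := K_period n (T x) 3
      rw [show 27 * 2 ^ n * 3 = 3 * (27 * 2 ^ n) by ring] at this
      exact this
  unfold PP
  rw [h1, h2, h3]

theorem PP_count_le {n r e i : ℕ} (he : e < 2) :
    ((range (27 * 2 ^ (n + 1))).filter (PP n r e i)).card ≤ D n (T' r e) i := by
  have : e = 0 ∨ e = 1 := by omega
  rcases this with rfl | rfl
  · refine le_trans (le_of_eq ?_) (DE_le n r i)
    unfold DE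
    congr 1
    ext x
    simp only [mem_filter, PP]
  · refine le_trans (le_of_eq ?_) (DO_le n r i)
    unfold DO
    congr 1
    ext x
    simp only [mem_filter, PP]

/-- `1/5 + 1/6 + 1/7 + 1/8 + 1/9`. -/
noncomputable def Fc : ℝ := 1 / 5 + 1 / 6 + 1 / 7 + 1 / 8 + 1 / 9

noncomputable def Cost (n : ℕ) : ℝ :=
  ∑ p ∈ ((range 27).filter (fun r => r % 3 ≠ 0)) ×ˢ range 2,
    ∑ i ∈ Ico (kap (T' p.1 p.2)) 900, Wt p.1 p.2 i * (D n (T' p.1 p.2) (i + 1) : ℝ)

def block (a : ℕ) : Finset ℕ := (Ico (135 * 2 ^ a) (135 * 2 ^ (a + 1))).filter (fun x => x % 3 ≠ 0)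

theorem block_bound (n : ℕ) :
    ∑ x ∈ block (n + 1), wp x / x ≤ Fc / (27 * 2 ^ (n + 1)) * Cost n := by
  have hmap : ∀ x ∈ block (n + 1), (x % 27, x % 2) ∈
      ((range 27).filter (fun r => r % 3 ≠ 0)) ×ˢ range 2 := by
    intro x hx
    simp only [block, mem_filter, mem_Ico] at hx
    simp only [mem_product, mem_filter, mem_range]
    omega
  rw [← sum_fiberwise_of_maps_to hmap]
  unfold Cost
  rw [mul_sum]
  apply sum_le_sum
  rintro ⟨r, e⟩ hp
  simp only [mem_product, mem_filter, mem_range] at hp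
  obtain ⟨⟨hr, hru⟩, he⟩ := hp
  simp only
  -- bound each term
  have h1 : ∀ x ∈ (block (n + 1)).filter (fun x => (x % 27, x % 2) = (r, e)), wp x / x ≤
      ∑ i ∈ Ico (kap (T' r e)) 900, Wt r e i * (if K n (T x) < m (i + 1) then 1 else 0) * (1 / x) := by
    intro x hx
    simp only [block, mem_filter, mem_Ico, Prod.mk.injEq] at hx
    obtain ⟨⟨⟨hx1, hx2⟩, hx3⟩, hx4, hx5⟩ := hx
    have hnx : nx x = n + 1 := nx_eq hx1 hx2
    have h2 := wp_le hx3
    rw [hx4, hx5, hnx, Nat.add_sub_cancel] at h2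
    rw [div_eq_mul_one_div, ← sum_mul]
    apply mul_le_mul_of_nonneg_right h2
    positivity
  refine le_trans (sum_le_sum h1) ?_
  rw [sum_comm, mul_sum]
  apply sum_le_sum
  intro i _
  have hX : 0 < 5 * (27 * 2 ^ (n + 1)) := by positivity
  have h3 := periodic_sum (N := 27 * 2 ^ (n + 1)) (X := 5 * (27 * 2 ^ (n + 1))) (by positivity) hX
    (PP_periodic n r e (i + 1)) 5
  have h4 : ∑ x ∈ (block (n + 1)).filter (fun x => (x % 27, x % 2) = (r, e)),
      Wt r e i * (if K n (T x) < m (i + 1) then 1 else 0) * (1 / (x : ℝ)) ≤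
      Wt r e i * ∑ x ∈ (Ico (5 * (27 * 2 ^ (n + 1))) (5 * (27 * 2 ^ (n + 1)) +
        5 * (27 * 2 ^ (n + 1)))).filter (PP n r e (i + 1)), 1 / (x : ℝ) := by
    rw [mul_sum, sum_filter, sum_filter]
    unfold block
    rw [sum_filter]
    have e1 : 135 * 2 ^ (n + 1) = 5 * (27 * 2 ^ (n + 1)) := by ring
    have e2 : 135 * 2 ^ (n + 1 + 1) = 5 * (27 * 2 ^ (n + 1)) + 5 * (27 * 2 ^ (n + 1)) := by ring
    rw [e1, e2]
    apply sum_le_sum
    intro x _
    have hw := Wt_nonneg r e i
    by_cases c1 : x % 3 ≠ 0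
    · by_cases c2 : (x % 27, x % 2) = (r, e)
      · by_cases c3 : K n (T x) < m (i + 1)
        · have c4 : PP n r e (i + 1) x := by
            simp only [Prod.mk.injEq] at c2
            exact ⟨c2.1, c2.2, c3⟩
          rw [if_pos c1, if_pos c2, if_pos c3, if_pos c4, mul_one]
        · rw [if_pos c1, if_pos c2, if_neg c3, mul_zero, zero_mul]
          split_ifs <;> positivity
      · rw [if_pos c1, if_neg c2]
        split_ifs <;> positivity
    · rw [if_neg c1]
      split_ifs <;> positivity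
  refine le_trans h4 ?_
  have h5 : ((((range (27 * 2 ^ (n + 1))).filter (PP n r e (i + 1))).card : ℕ) : ℝ) ≤
      (D n (T' r e) (i + 1) : ℝ) := by exact_mod_cast PP_count_le he
  have h6 : ∑ t ∈ range 5, 1 / (((5 * (27 * 2 ^ (n + 1)) : ℕ) : ℝ) + t * ((27 * 2 ^ (n + 1) : ℕ) : ℝ))
      = Fc / (27 * 2 ^ (n + 1)) := by
    simp only [sum_range_succ, sum_range_zero]
    push_cast
    unfold Fc
    have hp : (0 : ℝ) < 2 ^ (n + 1) := by positivity
    field_simp
    ring
  rw [h6] at h3
  have h7 : (0 : ℝ) ≤ Fc / (27 * 2 ^ (n + 1)) := by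
    unfold Fc
    positivity
  calc Wt r e i * ∑ x ∈ (Ico (5 * (27 * 2 ^ (n + 1))) (5 * (27 * 2 ^ (n + 1)) +
        5 * (27 * 2 ^ (n + 1)))).filter (PP n r e (i + 1)), 1 / (x : ℝ)
      ≤ Wt r e i * ((D n (T' r e) (i + 1) : ℝ) * (Fc / (27 * 2 ^ (n + 1)))) := by
        apply mul_le_mul_of_nonneg_left _ (Wt_nonneg r e i)
        exact le_trans h3 (mul_le_mul_of_nonneg_right h5 h7)
    _ = _ := by ring

end H1Col
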