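import Mathlib
import Pool.Agent.H1.Col.Basic

/-! Vectors of natural numbers packed in one big natural number: `pk w f n = ∑_{i<n} f i 2^(w i)`. -/

namespace H1Col

open Finset

/-- The packed vector with fields `f 0, ..., f (n-1)` of `w` bits. -/
def pk (w : ℕ) (f : ℕ → ℕ) (n : ℕ) : ℕ := ∑ i ∈ range n, f i * 2 ^ (w * i)

@[simp] theorem pk_zero (w : ℕ) (f : ℕ → ℕ) : pk w f 0 = 0 := by simp [pk]

theorem pk_succ (w : ℕ) (f : ℕ → ℕ) (n : ℕ) : pk w f (n + 1) = pk w f n + f n * 2 ^ (w * n) := by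
  simp [pk, sum_range_succ]

theorem pk_succ' (w : ℕ) (f : ℕ → ℕ) (n : ℕ) :
    pk w f (n + 1) = f 0 + 2 ^ w * pk w (fun i => f (i + 1)) n := by
  unfold pk
  rw [sum_range_succ', mul_sum]
  simp only [mul_zero, pow_zero, mul_one]
  rw [add_comm]
  congr 1
  apply sum_congr rfl
  intro i _
  rw [Nat.mul_add, mul_one, pow_add]
  ring

theorem pk_congr {w : ℕ} {f g : ℕ → ℕ} {n : ℕ} (h : ∀ i < n, f i = g i) : pk w f n = pk w g n := by
  unfold pk
  apply sum_congr rfl
  intro i hi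
  rw [h i (mem_range.mp hi)]

theorem pk_add (w : ℕ) (f g : ℕ → ℕ) (n : ℕ) :
    pk w f n + pk w g n = pk w (fun i => f i + g i) n := by
  unfold pk
  rw [← sum_add_distrib]
  apply sum_congr rfl
  intro i _
  ring

theorem pk_mul (w c : ℕ) (f : ℕ → ℕ) (n : ℕ) : pk w f n * c = pk w (fun i => f i * c) n := by
  unfold pk
  rw [sum_mul]
  apply sum_congr rfl
  intro i _
  ring

theorem pk_sub {w : ℕ} {f g : ℕ → ℕ} {n : ℕ} (h : ∀ i < n, g i ≤ f i) :
    pk w f n - pk w g n = pk w (fun i => f i - g i) n := by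
  have : pk w (fun i => f i - g i) n + pk w g n = pk w f n := by
    rw [pk_add]
    apply pk_congr
    intro i hi
    have := h i hi
    omega
  omega

theorem pk_half (w : ℕ) (f : ℕ → ℕ) (n : ℕ) : pk w (fun i => 2 * f i) n / 2 = pk w f n := by
  have : pk w (fun i => 2 * f i) n = pk w f n * 2 := by
    rw [pk_mul]
    apply pk_congr
    intro i _
    ring
  rw [this]
  simp

theorem pk_lt {w : ℕ} {f : ℕ → ℕ} {n : ℕ} (h : ∀ i < n, f i < 2 ^ w) : pk w f n < 2 ^ (w * n) := by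
  induction n with
  | zero => simp
  | succ n ih =>
      rw [pk_succ, Nat.mul_succ, pow_add]
      have h1 := ih (fun i hi => h i (by omega))
      have h2 := h n (by omega)
      calc pk w f n + f n * 2 ^ (w * n) < 2 ^ (w * n) + f n * 2 ^ (w * n) := by omega
        _ = 2 ^ (w * n) * (f n + 1) := by ring
        _ ≤ 2 ^ (w * n) * 2 ^ w := Nat.mul_le_mul_left _ h2

/-- Appending: fields from `m` on. -/
theorem pk_append (w : ℕ) (f : ℕ → ℕ) (m n : ℕ) :
    pk w f (m + n) = pk w f m + 2 ^ (w * m) * pk w (fun i => f (i + m)) n := by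
  unfold pk
  rw [sum_range_add, mul_sum]
  congr 1
  apply sum_congr rfl
  intro i _
  rw [show w * (m + i) = w * m + w * i by ring, pow_add, Nat.add_comm m i]
  ring

theorem pk_mod {w : ℕ} {f : ℕ → ℕ} {m n : ℕ} (hmn : m ≤ n) (h : ∀ i < m, f i < 2 ^ w) :
    pk w f n % 2 ^ (w * m) = pk w f m := by
  obtain ⟨k, rfl⟩ := Nat.exists_eq_add_of_le hmn
  rw [pk_append, Nat.add_mul_mod_self_left, Nat.mod_eq_of_lt (pk_lt h)]

theorem pk_div {w : ℕ} {f : ℕ → ℕ} {m n : ℕ} (hmn : m ≤ n) (h : ∀ i < m, f i < 2 ^ w) :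
    pk w f n / 2 ^ (w * m) = pk w (fun i => f (i + m)) (n - m) := by
  obtain ⟨k, rfl⟩ := Nat.exists_eq_add_of_le hmn
  rw [pk_append, Nat.add_mul_div_left _ _ (by positivity), Nat.div_eq_of_lt (pk_lt h)]
  simp

theorem pk_shift (w : ℕ) (f : ℕ → ℕ) (s n : ℕ) :
    pk w f n * 2 ^ (w * s) = pk w (fun i => if i < s then 0 else f (i - s)) (s + n) := by
  rw [pk_append]
  have h1 : pk w (fun i => if i < s then 0 else f (i - s)) s = 0 := by
    unfold pk
    apply sum_eq_zero
    intro i hi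
    simp [mem_range.mp hi]
  rw [h1, zero_add, mul_comm]
  congr 1
  apply pk_congr
  intro i _
  simp

theorem pk_testBit {w : ℕ} {f : ℕ → ℕ} {n : ℕ} (h : ∀ i < n, f i < 2 ^ w) :
    ∀ i < n, ∀ b < w, (pk w f n).testBit (w * i + b) = (f i).testBit b := by
  induction n generalizing f with
  | zero => intro i hi; omega
  | succ n ih =>
      intro i hi b hb
      rw [pk_succ']
      have h0 : f 0 < 2 ^ w := h 0 (by omega)
      rw [Nat.add_comm, Nat.testBit_two_pow_mul_add _ h0]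
      rcases Nat.eq_zero_or_pos i with rfl | hi0
      · simp [hb]
      · have : ¬ (w * i + b < w) := by
          have : w * 1 ≤ w * i := Nat.mul_le_mul_left w hi0
          omega
        rw [if_neg this]
        obtain ⟨j, rfl⟩ : ∃ j, i = j + 1 := ⟨i - 1, by omega⟩
        have e : w * (j + 1) + b - w = w * j + b := by rw [Nat.mul_succ]; omega
        rw [e]
        exact ih (fun i hi => h (i + 1) (by omega)) j (by omega) b hb

theorem pk_testBit_ge {w : ℕ} {f : ℕ → ℕ} {n : ℕ} (h : ∀ i < n, f i < 2 ^ w) {j : ℕ}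
    (hj : w * n ≤ j) : (pk w f n).testBit j = false := by
  apply Nat.testBit_lt_two_pow
  exact lt_of_lt_of_le (pk_lt h) (Nat.pow_le_pow_right (by norm_num) hj)

theorem pk_land {w : ℕ} {f g : ℕ → ℕ} {n : ℕ} (hf : ∀ i < n, f i < 2 ^ w)
    (hg : ∀ i < n, g i < 2 ^ w) : pk w f n &&& pk w g n = pk w (fun i => f i &&& g i) n := by
  have hfg : ∀ i < n, (f i &&& g i) < 2 ^ w := fun i hi =>
    lt_of_le_of_lt Nat.and_le_left (hf i hi)
  apply Nat.eq_of_testBit_eq
  intro j
  rw [Nat.testBit_and]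
  rcases Nat.eq_zero_or_pos w with rfl | hw
  · have z : ∀ k : ℕ → ℕ, (∀ i < n, k i < 2 ^ 0) → pk 0 k n = 0 := by
      intro k hk
      unfold pk
      apply sum_eq_zero
      intro i hi
      have := hk i (mem_range.mp hi)
      simp at this
      simp [this]
    rw [z f hf, z g hg, z _ hfg]
    simp
  by_cases hj : w * n ≤ j
  · rw [pk_testBit_ge hf hj, pk_testBit_ge hfg hj]
    simp
  · push Not at hj
    have e : j = w * (j / w) + j % w := (Nat.div_add_mod j w).symm
    have h1 : j / w < n := by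
      apply Nat.div_lt_of_lt_mul
      exact hj
    have h2 : j % w < w := Nat.mod_lt _ hw
    rw [e, pk_testBit hf _ h1 _ h2, pk_testBit hg _ h1 _ h2, pk_testBit hfg _ h1 _ h2,
      Nat.testBit_and]

/-- All fields equal to `c`. -/
theorem pk_const_mul (w c n : ℕ) : pk w (fun _ => 1) n * c = pk w (fun _ => c) n := by
  rw [pk_mul]; simp

theorem land_one_eq (x : ℕ) : x &&& 1 = x % 2 := Nat.and_one_is_mod x

theorem land_mask_one {w x : ℕ} (h : x < 2 ^ w) : (2 ^ w - 1) &&& x = x := by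
  rw [Nat.and_comm, Nat.and_two_pow_sub_one_eq_mod, Nat.mod_eq_of_lt h]

/-- One step of `T` on a packed vector, `ones = pk w 1 n`, `msk = 2^w - 1`. -/
def vstep (msk ones N : ℕ) : ℕ :=
  Nat.shiftRight (Nat.add (Nat.add N (Nat.land N ones))
    (Nat.shiftLeft (Nat.land (Nat.mul (Nat.land N ones) msk) N) 1)) 1

theorem vstep_pk {w n : ℕ} {f : ℕ → ℕ} (hw : 0 < w) (h : ∀ i < n, f i < 2 ^ w) :
    vstep (2 ^ w - 1) (pk w (fun _ => 1) n) (pk w f n) = pk w (fun i => T (f i)) n := by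
  have h1 : ∀ i < n, (1 : ℕ) < 2 ^ w := fun i _ => Nat.one_lt_two_pow (by omega)
  have hm : pk w f n &&& pk w (fun _ => 1) n = pk w (fun i => f i % 2) n := by
    rw [pk_land h h1]
    apply pk_congr
    intro i _
    exact land_one_eq _
  have hM : ∀ i < n, f i % 2 * (2 ^ w - 1) < 2 ^ w := by
    intro i _
    have : f i % 2 ≤ 1 := by omega
    calc f i % 2 * (2 ^ w - 1) ≤ 1 * (2 ^ w - 1) := Nat.mul_le_mul_right _ this
      _ < 2 ^ w := by have := Nat.one_lt_two_pow (n := w) (by omega); omega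
  show ((pk w f n + (pk w f n &&& pk w (fun _ => 1) n)) +
    (((pk w f n &&& pk w (fun _ => 1) n) * (2 ^ w - 1)) &&& pk w f n) <<< 1) >>> 1 = _
  rw [hm, pk_mul, pk_land hM h, Nat.shiftLeft_eq, pow_one, pk_mul, pk_add, pk_add,
    Nat.shiftRight_eq_div_pow, pow_one]
  have : ∀ i < n, f i + f i % 2 + (f i % 2 * (2 ^ w - 1) &&& f i) * 2 = 2 * T (f i) := by
    intro i hi
    rcases Nat.mod_two_eq_zero_or_one (f i) with e | e
    · rw [e, two_T_even e]; simp
    · rw [e, two_T_odd e, one_mul, land_mask_one (h i hi)]; ring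
  rw [pk_congr this, pk_half]

end H1Col
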