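import Mathlib
import Pool.Agent.H1.Col.Pack
import Pool.Agent.H1.Col.Block

/-! Kernel computation of the transfer recursion: definitions. -/


namespace H1Col

/-- `n`-th element of a list (kernel friendly). -/
def nth (l : List ℕ) : ℕ → ℕ :=
  @List.rec ℕ (fun _ => ℕ → ℕ) (fun _ => 0)
    (fun a _ ih i => @Nat.rec (fun _ => ℕ) a (fun j _ => ih j) i) l

/-- `[f s, f (s+1), ..., f (s+n-1)]`. -/
def tabFrom (f : ℕ → ℕ) (n : ℕ) : ℕ → List ℕ :=
  @Nat.rec (fun _ => ℕ → List ℕ) (fun _ => []) (fun _ ih s => List.cons (f s) (ih (Nat.succ s))) n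

def mask (k : ℕ) : ℕ := Nat.sub (Nat.pow 2 (Nat.mul 48 k)) 1

def onesOf (n : ℕ) : ℕ := Nat.div (Nat.sub (Nat.pow 2 (Nat.mul 48 n)) 1) 281474976710655

def ONESV : ℕ := onesOf 3822

/-- fields `a, ..., a+b-1` equal to `2^36`. -/
def padOf (a b : ℕ) : ℕ :=
  Nat.shiftLeft (Nat.shiftLeft (Nat.shiftRight (onesOf (a + b)) (Nat.mul 48 a)) 36) (Nat.mul 48 a)

def PAD : ℕ := padOf 3736 86

def gather (l : List ℕ) : ℕ → ℕ :=
  @List.rec ℕ (fun _ => ℕ → ℕ) (fun U => U)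
    (fun t _ ih U => Nat.add (ih (Nat.shiftRight (Nat.land U (mask (Nat.succ t))) 48))
      (Nat.shiftLeft (Nat.shiftRight U (Nat.mul 48 t)) (Nat.mul 48 t))) l

def drop (k V : ℕ) : ℕ := Nat.shiftRight V (Nat.mul 48 k)

def hfun (st : List ℕ) (r : ℕ) : ℕ :=
  Nat.add (gather TH (drop 86 (nth st r))) PAD

def ceilHalf (Y : ℕ) : ℕ := Nat.shiftRight (Nat.add Y (Nat.land Y ONESV)) 1

def cutLow (k X : ℕ) : ℕ := Nat.shiftLeft (Nat.shiftRight X (Nat.mul 48 k)) (Nat.mul 48 k)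

def upBy (k n V : ℕ) : ℕ := Nat.land (Nat.shiftLeft V (Nat.mul 48 k)) (mask n)

def stepR (st hl : List ℕ) (r : ℕ) : ℕ :=
  ceilHalf (cutLow (Nat.succ (kap r)) (Nat.add (upBy 147 3822 (nth st (T0 r))) (nth hl (T1 r))))

def stepL (st hl : List ℕ) : List ℕ :=
  tabFrom (fun r => bif Nat.beq (r % 3) 0 then 0 else stepR st hl r) 27 0

def step (st : List ℕ) : List ℕ := stepL st (tabFrom (hfun st) 27 0)

def init1 (V k : ℕ) : ℕ := cutLow (Nat.succ k) (Nat.shiftLeft V 36)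

/-- Initial state. -/
def st0 : List ℕ := tabFrom (fun r => init1 ONESV (kap r)) 27 0

def BIG : ℕ := Nat.pow 2 (Nat.mul 48 3823)

def chk (st : List ℕ) : Bool := allBelow (fun r => Nat.ble (nth st r) BIG) 27

def run1 (f : List ℕ → Bool) (n : ℕ) : List ℕ → Bool :=
  @Nat.rec (fun _ => List ℕ → Bool) f (fun _ ih st => and (chk st) (ih (step st))) n

def lowF (k V : ℕ) : ℕ := Nat.land V (mask k)

def accadd (acc st : List ℕ) : List ℕ :=
  tabFrom (fun r => Nat.add (nth acc r) (lowF 901 (nth st r))) 27 0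

def run2 (f : List ℕ → Bool) (n : ℕ) : List ℕ → List ℕ → Bool :=
  @Nat.rec (fun _ => List ℕ → List ℕ → Bool) (fun _ acc => f acc)
    (fun _ ih st acc => and (chk st) (and (chk acc) (ih (step st) (accadd acc st)))) n

def acc0 : List ℕ := tabFrom (fun _ => 0) 27 0

def fld (V i : ℕ) : ℕ := Nat.land (Nat.shiftRight V (Nat.mul 48 i)) 281474976710655

/-- Integer versions of `Aur`, `g`, `Wt` (multiplied by `4718595`). -/
def Ai (r e : ℕ) : ℕ :=
  bif Nat.beq e 0 then 4718595 * m (kap r) else 1572865 * (3 * m (kap r) + 1048576)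

def gi (e i : ℕ) : ℕ := bif Nat.beq e 0 then 9437190 * m i else 3145728 * m i

def kmin (a b : ℕ) : ℕ := bif Nat.ble a b then a else b

def Wi (r e i : ℕ) : ℕ := Nat.sub (kmin (Ai r e) (gi e (i + 1))) (kmin (Ai r e) (gi e i))

def kT (r e : ℕ) : ℕ := bif Nat.beq e 0 then T0 r else T1 r

/-- `∑_{i in [s, s+n)} Wi r e i * fld V (i+1)`. -/
def inner (r e V : ℕ) (n : ℕ) : ℕ → ℕ :=
  @Nat.rec (fun _ => ℕ → ℕ) (fun _ => 0)
    (fun _ ih s => Nat.add (Nat.mul (Wi r e s) (fld V (Nat.succ s))) (ih (Nat.succ s))) n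

def cost1 (acc : List ℕ) (r e : ℕ) : ℕ :=
  inner r e (nth acc (kT r e)) (Nat.sub 900 (kap (kT r e))) (kap (kT r e))

def total (acc : List ℕ) (n : ℕ) : ℕ :=
  @Nat.rec (fun _ => ℕ) 0 (fun r ih => bif Nat.beq (r % 3) 0 then ih else
    Nat.add ih (Nat.add (cost1 acc r 0) (cost1 acc r 1))) n

/-! Definitional lemmas. -/

theorem mask_def (k : ℕ) : mask k = 2 ^ (48 * k) - 1 := rfl
theorem onesOf_def (n : ℕ) : onesOf n = (2 ^ (48 * n) - 1) / 281474976710655 := rfl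
theorem padOf_def (a b : ℕ) :
    padOf a b = (((onesOf (a + b)) >>> (48 * a)) <<< 36) <<< (48 * a) := rfl
theorem gather_cons (t : ℕ) (l : List ℕ) (U : ℕ) :
    gather (t :: l) U = gather l ((U &&& mask (t + 1)) >>> 48) + (U >>> (48 * t)) <<< (48 * t) := rfl
theorem drop_def (k V : ℕ) : drop k V = V >>> (48 * k) := rfl
theorem hfun_def (st : List ℕ) (r : ℕ) : hfun st r = gather TH (drop 86 (nth st r)) + PAD := rfl
theorem ceilHalf_def (Y : ℕ) : ceilHalf Y = (Y + (Y &&& ONESV)) >>> 1 := rfl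
theorem cutLow_def (k X : ℕ) : cutLow k X = (X >>> (48 * k)) <<< (48 * k) := rfl
theorem init1_def (V k : ℕ) : init1 V k = cutLow (k + 1) (V <<< 36) := rfl
theorem upBy_def (k n V : ℕ) : upBy k n V = (V <<< (48 * k)) &&& mask n := rfl
theorem lowF_def (k V : ℕ) : lowF k V = V &&& mask k := rfl
theorem stepR_def (st hl : List ℕ) (r : ℕ) : stepR st hl r =
  ceilHalf (cutLow (kap r + 1) (upBy 147 3822 (nth st (T0 r)) + nth hl (T1 r))) := rfl
theorem fld_def (V i : ℕ) : fld V i = (V >>> (48 * i)) &&& 281474976710655 := rfl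

end H1Col
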