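import Mathlib
import Pool.Agent.H1.Col.DPdef

/-! Kernel computation of the transfer recursion: correctness. -/


namespace H1Col

open Finset

theorem nth_tabFrom (f : ℕ → ℕ) (n : ℕ) : ∀ s i, i < n → nth (tabFrom f n s) i = f (s + i) := by
  induction n with
  | zero => intro s i h; omega
  | succ n ih =>
      intro s i h
      cases i with
      | zero => rfl
      | succ i =>
          have h1 : nth (tabFrom f (n + 1) s) (i + 1) = nth (tabFrom f n (s + 1)) i := rfl
          rw [h1, ih (s + 1) i (by omega)]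
          congr 1
          omega

theorem nth_tab27 (f : ℕ → ℕ) {r : ℕ} (h : r < 27) : nth (tabFrom f 27 0) r = f r := by
  rw [nth_tabFrom f 27 0 r h, Nat.zero_add]

theorem pk_ones (w n : ℕ) : pk w (fun _ => 1) n * (2 ^ w - 1) + 1 = 2 ^ (w * n) := by
  induction n with
  | zero => simp
  | succ n ih =>
      rw [pk_succ, Nat.mul_succ, pow_add]
      have h1 : 1 ≤ 2 ^ w := Nat.one_le_two_pow
      obtain ⟨c, hc⟩ : ∃ c, 2 ^ w = c + 1 := ⟨2 ^ w - 1, by omega⟩
      rw [hc] at ih ⊢
      simp only [Nat.add_sub_cancel] at ih ⊢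
      nlinarith

theorem onesOf_eq (n : ℕ) : onesOf n = pk 48 (fun _ => 1) n := by
  have h := pk_ones 48 n
  rw [onesOf_def, ← h, Nat.add_sub_cancel]
  exact Nat.mul_div_cancel _ (by norm_num)

theorem ONESV_eq : ONESV = pk 48 (fun _ => 1) 3822 := onesOf_eq 3822

theorem padOf_eq (a b : ℕ) :
    padOf a b = pk 48 (fun i => if i < a then 0 else 2 ^ 36) (a + b) := by
  rw [padOf_def, onesOf_eq, Nat.shiftRight_eq_div_pow, pk_div (by omega) (by intro i _; norm_num),
    Nat.shiftLeft_eq, Nat.shiftLeft_eq, pk_mul, pk_shift, Nat.add_sub_cancel_left]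
  apply pk_congr
  intro i _
  rw [one_mul]

theorem PAD_eq : PAD = pk 48 (fun i => if i < 3736 then 0 else 2 ^ 36) 3822 := padOf_eq 3736 86

attribute [local irreducible] ONESV PAD

theorem cutLow_eq {k n : ℕ} {f : ℕ → ℕ} (hk : k ≤ n) (hf : ∀ i < n, f i < 2 ^ 48) :
    cutLow k (pk 48 f n) = pk 48 (fun i => if i < k then 0 else f i) n := by
  rw [cutLow_def, Nat.shiftRight_eq_div_pow, pk_div hk (fun i hi => hf i (by omega)),
    Nat.shiftLeft_eq, pk_shift, show k + (n - k) = n by omega]
  apply pk_congr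
  intro i _
  split_ifs with h
  · rfl
  · congr 1; omega

theorem drop_eq {k n : ℕ} {f : ℕ → ℕ} (hk : k ≤ n) (hf : ∀ i < n, f i < 2 ^ 48) :
    drop k (pk 48 f n) = pk 48 (fun i => f (i + k)) (n - k) := by
  rw [drop_def, Nat.shiftRight_eq_div_pow, pk_div hk (fun i hi => hf i (by omega))]

theorem upBy_eq {k n : ℕ} {f : ℕ → ℕ} (hf : ∀ i < n, f i < 2 ^ 48) :
    upBy k n (pk 48 f n) = pk 48 (fun i => if i < k then 0 else f (i - k)) n := by
  rw [upBy_def, Nat.shiftLeft_eq, pk_shift, mask_def, Nat.and_two_pow_sub_one_eq_mod,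
    pk_mod (by omega)]
  intro i hi
  split_ifs
  · positivity
  · exact hf _ (by omega)

theorem lowF_eq {k n : ℕ} {f : ℕ → ℕ} (hk : k ≤ n) (hf : ∀ i < n, f i < 2 ^ 48) :
    lowF k (pk 48 f n) = pk 48 f k := by
  rw [lowF_def, mask_def, Nat.and_two_pow_sub_one_eq_mod, pk_mod hk (fun i hi => hf i (by omega))]

theorem pk_extend {w n k : ℕ} {f : ℕ → ℕ} :
    pk w f n = pk w (fun i => if i < n then f i else 0) (n + k) := by
  rw [pk_append]
  have z : pk w (fun i => if i + n < n then f (i + n) else 0) k = 0 := by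
    unfold pk
    apply sum_eq_zero
    intro i _
    simp
  rw [z, mul_zero, add_zero]
  apply pk_congr
  intro i hi
  rw [if_pos hi]

/-- Decreasing list with entries below `n`. -/
def valid : ℕ → List ℕ → Prop
  | _, [] => True
  | n, t :: l => t < n ∧ valid t l

theorem cnt_of_valid {l : List ℕ} : ∀ {n i : ℕ}, valid n l → n ≤ i → cnt l i = 0 := by
  induction l with
  | nil => intro n i _ _; rfl
  | cons t l ih =>
      intro n i hv hi
      obtain ⟨h1, h2⟩ := hv
      rw [cnt_cons, if_neg (by omega)]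
      exact ih h2 (by omega)

theorem gather_eq {l : List ℕ} : ∀ {n : ℕ} {f : ℕ → ℕ}, valid n l → (∀ i < n, f i < 2 ^ 48) →
    gather l (pk 48 f n) = pk 48 (fun i => f (i + cnt l i)) n := by
  induction l with
  | nil => intro n f _ _; rfl
  | cons t l ih =>
      intro n f hv hf
      obtain ⟨h1, h2⟩ := hv
      have e1 : (pk 48 f n &&& mask (t + 1)) >>> 48 = pk 48 (fun i => f (i + 1)) t := by
        rw [mask_def, Nat.and_two_pow_sub_one_eq_mod, pk_mod (by omega) (fun i hi => hf i (by omega)),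
          Nat.shiftRight_eq_div_pow]
        have := pk_div (w := 48) (f := f) (m := 1) (n := t + 1) (by omega)
          (fun i hi => hf i (by omega))
        rw [mul_one] at this
        rw [this, Nat.add_sub_cancel]
      have e2 : (pk 48 f n >>> (48 * t)) <<< (48 * t)
          = pk 48 (fun i => if i < t then 0 else f i) n := by
        rw [Nat.shiftRight_eq_div_pow, pk_div (by omega) (fun i hi => hf i (by omega)),
          Nat.shiftLeft_eq, pk_shift, show t + (n - t) = n by omega]
        apply pk_congr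
        intro i _
        split_ifs with h
        · rfl
        · congr 1; omega
      rw [gather_cons, e1, e2, ih h2 (fun i hi => hf (i + 1) (by omega))]
      have e3 : pk 48 (fun i => f (i + cnt l i + 1)) t
          = pk 48 (fun i => if i < t then f (i + cnt l i + 1) else 0) n := by
        obtain ⟨k, rfl⟩ : ∃ k, n = t + k := ⟨n - t, by omega⟩
        exact pk_extend
      rw [e3, pk_add]
      apply pk_congr
      intro i _
      rw [cnt_cons]
      by_cases h : i < t
      · rw [if_pos h, if_pos h, if_pos h, add_zero, add_assoc]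
      · rw [if_neg h, if_neg h, if_neg h, zero_add, cnt_of_valid h2 (by omega), add_zero]

theorem valid_TH : valid 3736 TH := by
  unfold TH
  simp [valid]

/-- The transfer step on fields. -/
def Gs (G : ℕ → ℕ → ℕ) (r i : ℕ) : ℕ :=
  if 3822 ≤ i then 2 ^ 36 else
  if i ≤ kap r then 0 else
    (G (T0 r) (i - 147) + G (T1 r) (J i) + (G (T0 r) (i - 147) + G (T1 r) (J i)) % 2) / 2

/-- `st` represents the bounds `G` for the counts `D n`. -/
structure Rep (n : ℕ) (st : List ℕ) (G : ℕ → ℕ → ℕ) : Prop where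
  nth_eq : ∀ r < 27, r % 3 ≠ 0 → nth st r = pk 48 (G r) 3822
  le : ∀ r i, G r i ≤ 2 ^ 36
  top : ∀ r i, 3822 ≤ i → G r i = 2 ^ 36
  D_le : ∀ r < 27, r % 3 ≠ 0 → ∀ i, D n r i * 2 ^ 36 ≤ 2 ^ n * G r i

theorem T0_lt (r : ℕ) : T0 r < 27 := Nat.mod_lt _ (by norm_num)
theorem T1_lt (r : ℕ) : T1 r < 27 := Nat.mod_lt _ (by norm_num)
theorem T0_unit {r : ℕ} (h : r % 3 ≠ 0) : T0 r % 3 ≠ 0 := by unfold T0; omega
theorem T1_unit (r : ℕ) : T1 r % 3 ≠ 0 := by unfold T1; omega

theorem D_le_pow (n : ℕ) : ∀ r < 27, r % 3 ≠ 0 → ∀ i, D n r i ≤ 2 ^ n := by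
  induction n with
  | zero =>
      intro r _ _ i
      refine le_trans D_zero_le ?_
      split_ifs <;> norm_num
  | succ n ih =>
      intro r hr hu i
      refine le_trans (D_succ_le hr hu) ?_
      split_ifs
      · have h1 := ih (T0 r) (T0_lt r) (T0_unit hu) (i - 147)
        have h2 := ih (T1 r) (T1_lt r) (T1_unit r) (J i)
        rw [pow_succ]; omega
      · positivity

theorem hfun_eq {n : ℕ} {st : List ℕ} {G : ℕ → ℕ → ℕ} (h : Rep n st G) {r : ℕ} (hr : r < 27)
    (hu : r % 3 ≠ 0) : hfun st r = pk 48 (fun i => G r (J i)) 3822 := by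
  have hlt : ∀ i, G r i < 2 ^ 48 := fun i => lt_of_le_of_lt (h.le r i) (by norm_num)
  have e0 : gather TH (drop 86 (nth st r)) = pk 48 (fun i => G r (i + cnt TH i + 86)) 3736 := by
    rw [h.nth_eq r hr hu, drop_eq (by norm_num) (fun i _ => hlt i)]
    exact gather_eq (f := fun i => G r (i + 86)) valid_TH (fun i _ => hlt _)
  have e3 : pk 48 (fun i => G r (i + cnt TH i + 86)) 3736
      = pk 48 (fun i => if i < 3736 then G r (i + cnt TH i + 86) else 0) 3822 :=
    pk_extend (k := 86)
  rw [hfun_def, e0, PAD_eq, e3, pk_add]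
  apply pk_congr
  intro i _
  have hJ : J i = i + cnt TH i + 86 := by
    unfold J
    omega
  by_cases hi : i < 3736
  · rw [if_pos hi, if_pos hi, add_zero, hJ]
  · rw [if_neg hi, if_neg hi, zero_add, h.top]
    omega

theorem ceilHalf_eq {f : ℕ → ℕ} (hf : ∀ i < 3822, f i < 2 ^ 48) :
    ceilHalf (pk 48 f 3822) = pk 48 (fun i => (f i + f i % 2) / 2) 3822 := by
  rw [ceilHalf_def, ONESV_eq, pk_land hf (by intro i _; norm_num), pk_add, Nat.shiftRight_eq_div_pow, pow_one]
  have : ∀ i < 3822, f i + (f i &&& 1) = 2 * ((f i + f i % 2) / 2) := by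
    intro i _
    rw [land_one_eq]
    omega
  rw [pk_congr this, pk_half]

theorem step_rep {n : ℕ} {st : List ℕ} {G : ℕ → ℕ → ℕ} (h : Rep n st G) :
    Rep (n + 1) (step st) (Gs G) := by
  have hle2 : ∀ r i, Gs G r i ≤ 2 ^ 36 := by
    intro r i
    unfold Gs
    split_ifs
    · exact le_refl _
    · positivity
    · have h1 := h.le (T0 r) (i - 147)
      have h2 := h.le (T1 r) (J i)
      omega
  refine ⟨?_, hle2, ?_, ?_⟩
  · intro r hr hu
    have hkb := kap_bounds r hr hu
    have e1 : nth (step st) r = stepR st (tabFrom (hfun st) 27 0) r := by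
      show nth (stepL st (tabFrom (hfun st) 27 0)) r = _
      unfold stepL
      rw [nth_tab27 _ hr]
      have : Nat.beq (r % 3) 0 = false := by
        rw [Bool.eq_false_iff]
        intro hh
        exact hu (Nat.eq_of_beq_eq_true hh)
      rw [this]
      rfl
    have hG : ∀ r i, G r i < 2 ^ 48 := fun r i => lt_of_le_of_lt (h.le r i) (by norm_num)
    rw [e1, stepR_def, nth_tab27 _ (T1_lt r), hfun_eq h (T1_lt r) (T1_unit r),
      h.nth_eq (T0 r) (T0_lt r) (T0_unit hu), upBy_eq (fun i _ => hG _ _), pk_add]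
    have hb : ∀ i, (if i < 147 then 0 else G (T0 r) (i - 147)) + G (T1 r) (J i) ≤ 2 ^ 37 := by
      intro i
      have h2 := h.le (T0 r) (i - 147)
      have h3 := h.le (T1 r) (J i)
      split_ifs <;> omega
    rw [cutLow_eq (by omega) (fun i _ => lt_of_le_of_lt (hb i) (by norm_num)), ceilHalf_eq]
    · apply pk_congr
      intro i hi
      unfold Gs
      rw [if_neg (show ¬ 3822 ≤ i by omega)]
      by_cases h1 : i ≤ kap r
      · rw [if_pos (show i < kap r + 1 by omega), if_pos h1]
      · rw [if_neg (show ¬ i < kap r + 1 by omega), if_neg h1, if_neg (show ¬ i < 147 by omega)]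
    · intro i _
      have := hb i
      split_ifs with h1 h2
      · norm_num
      · rw [if_pos h2] at this
        exact lt_of_le_of_lt this (by norm_num)
      · rw [if_neg h2] at this
        exact lt_of_le_of_lt this (by norm_num)
  · intro r i hi
    unfold Gs
    rw [if_pos hi]
  · intro r hr hu i
    have hkb := kap_bounds r hr hu
    by_cases hi : 3822 ≤ i
    · unfold Gs
      rw [if_pos hi]
      exact Nat.mul_le_mul_right _ (D_le_pow (n + 1) r hr hu i)
    · have h1 := D_succ_le (n := n) (i := i) hr hu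
      unfold Gs
      rw [if_neg hi]
      by_cases h2 : i ≤ kap r
      · rw [if_neg (by omega)] at h1
        rw [if_pos h2]
        have : D (n + 1) r i = 0 := by omega
        rw [this]
        simp
      · rw [if_pos (by omega)] at h1
        rw [if_neg h2]
        have h3 := h.D_le (T0 r) (T0_lt r) (T0_unit hu) (i - 147)
        have h4 := h.D_le (T1 r) (T1_lt r) (T1_unit r) (J i)
        set u := G (T0 r) (i - 147)
        set v := G (T1 r) (J i)
        have h5 : u + v ≤ 2 * ((u + v + (u + v) % 2) / 2) := by omega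
        calc D (n + 1) r i * 2 ^ 36 ≤ (D n (T0 r) (i - 147) + D n (T1 r) (J i)) * 2 ^ 36 :=
              Nat.mul_le_mul_right _ h1
          _ = D n (T0 r) (i - 147) * 2 ^ 36 + D n (T1 r) (J i) * 2 ^ 36 := by ring
          _ ≤ 2 ^ n * u + 2 ^ n * v := Nat.add_le_add h3 h4
          _ = 2 ^ n * (u + v) := by ring
          _ ≤ 2 ^ n * (2 * ((u + v + (u + v) % 2) / 2)) := Nat.mul_le_mul_left _ h5
          _ = _ := by rw [pow_succ]; ring

end H1Col
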