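import Mathlib
import Pool.Agent.H1.Col.DPdef

/-! The kernel computation of the transfer recursion (about 20 s, 5 GB). -/

set_option maxRecDepth 1000000

namespace H1Col

theorem dp_run : run1 (fun st => run2 (fun acc =>
    Nat.ble (total acc 27) 4358461832940274650600191) 329 st acc0) 21 st0 = true := by
  decide +kernel

end H1Col
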