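import Mathlib
import Pool.Agent.H1.Col.DP
import Pool.Agent.H1.Col.DPker

/-! From the kernel computation to the cost of the blocks `22 ≤ a ≤ 350`. -/


namespace H1Col

open Finset

def G0 (r i : ℕ) : ℕ := if 3822 ≤ i then 2 ^ 36 else if i ≤ kap r then 0 else 2 ^ 36

theorem st0_nth (r : ℕ) (hr : r < 27) : nth st0 r = cutLow (kap r + 1) (ONESV <<< 36) := by
  unfold st0
  rw [nth_tab27 _ hr, init1_def]

theorem rep0 : Rep 0 st0 G0 := by
  refine ⟨?_, ?_, ?_, ?_⟩
  · intro r hr hu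
    have hkb := kap_bounds r hr hu
    rw [st0_nth r hr, ONESV_eq, Nat.shiftLeft_eq, pk_mul,
      cutLow_eq (by omega) (by intro i _; norm_num)]
    apply pk_congr
    intro i hi
    unfold G0
    rw [if_neg (show ¬ 3822 ≤ i by omega)]
    by_cases h : i ≤ kap r
    · rw [if_pos (show i < kap r + 1 by omega), if_pos h]
    · rw [if_neg (show ¬ i < kap r + 1 by omega), if_neg h, one_mul]
  · intro r i
    unfold G0
    split_ifs <;> norm_num
  · intro r i hi
    unfold G0
    rw [if_pos hi]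
  · intro r hr hu i
    have h := D_zero_le (r := r) (i := i)
    unfold G0
    split_ifs with h1 h2
    · have : D 0 r i ≤ 1 := by
        refine le_trans h ?_
        split_ifs <;> norm_num
      rw [pow_zero, one_mul]
      exact le_trans (Nat.mul_le_mul_right _ this) (by norm_num)
    · rw [if_neg (by omega)] at h
      have : D 0 r i = 0 := by omega
      rw [this]; simp
    · rw [if_pos (by omega)] at h
      rw [pow_zero, one_mul]
      exact le_trans (Nat.mul_le_mul_right _ h) (by norm_num)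

theorem run1_spec {f : List ℕ → Bool} : ∀ (n k : ℕ) (st : List ℕ) (G : ℕ → ℕ → ℕ),
    run1 f n st = true → Rep k st G → ∃ st' G', f st' = true ∧ Rep (k + n) st' G' := by
  intro n
  induction n with
  | zero => intro k st G h hR; exact ⟨st, G, h, hR⟩
  | succ n ih =>
      intro k st G h hR
      have h' : (chk st && run1 f n (step st)) = true := h
      rw [Bool.and_eq_true] at h'
      obtain ⟨st', G', h1, h2⟩ := ih (k + 1) (step st) (Gs G) h'.2 (step_rep hR)
      refine ⟨st', G', h1, ?_⟩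
      rwa [show k + (n + 1) = k + 1 + n by ring]

structure AccRep (n : ℕ) (acc : List ℕ) (A : ℕ → ℕ → ℕ) : Prop where
  nth_eq : ∀ r < 27, r % 3 ≠ 0 → nth acc r = pk 48 (A r) 901
  le : ∀ r i, A r i ≤ (n - 21) * 2 ^ 36
  D_le : ∀ r < 27, r % 3 ≠ 0 → ∀ i,
    (∑ j ∈ Ico 21 n, (D j r i : ℝ) / 2 ^ j) * 2 ^ 36 ≤ A r i

theorem acc0_rep : AccRep 21 acc0 (fun _ _ => 0) := by
  refine ⟨?_, ?_, ?_⟩
  · intro r hr _
    unfold acc0
    rw [nth_tab27 _ hr]
    unfold pk
    simp
  · intro r i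
    simp
  · intro r _ _ i
    simp

theorem accadd_rep {n : ℕ} {st acc : List ℕ} {G A : ℕ → ℕ → ℕ} (hn : 21 ≤ n) (hR : Rep n st G)
    (hA : AccRep n acc A) : AccRep (n + 1) (accadd acc st) (fun r i => A r i + G r i) := by
  refine ⟨?_, ?_, ?_⟩
  · intro r hr hu
    unfold accadd
    rw [nth_tab27 _ hr]
    have e : Nat.add (nth acc r) (lowF 901 (nth st r)) = nth acc r + lowF 901 (nth st r) := rfl
    rw [e, hA.nth_eq r hr hu, hR.nth_eq r hr hu,
      lowF_eq (by norm_num) (fun i _ => lt_of_le_of_lt (hR.le r i) (by norm_num)), pk_add]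
  · intro r i
    have h1 := hA.le r i
    have h2 := hR.le r i
    have e : (n + 1 - 21) * 2 ^ 36 = (n - 21) * 2 ^ 36 + 2 ^ 36 := by
      rw [show n + 1 - 21 = (n - 21) + 1 by omega]; ring
    show A r i + G r i ≤ _
    omega
  · intro r hr hu i
    have h1 := hA.D_le r hr hu i
    have h2 := hR.D_le r hr hu i
    have h3 : (D n r i : ℝ) * 2 ^ 36 ≤ 2 ^ n * G r i := by exact_mod_cast h2
    rw [sum_Ico_succ_top hn]
    push_cast
    have h4 : (D n r i : ℝ) / 2 ^ n * 2 ^ 36 ≤ G r i := by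
      rw [div_mul_eq_mul_div, div_le_iff₀ (by positivity)]
      linarith
    linarith

theorem run2_spec {f : List ℕ → Bool} : ∀ (n k : ℕ) (st acc : List ℕ) (G A : ℕ → ℕ → ℕ),
    21 ≤ k → run2 f n st acc = true → Rep k st G → AccRep k acc A →
    ∃ acc' A', f acc' = true ∧ AccRep (k + n) acc' A' := by
  intro n
  induction n with
  | zero => intro k st acc G A _ h _ hA; exact ⟨acc, A, h, hA⟩
  | succ n ih =>
      intro k st acc G A hk h hR hA
      have h' : (chk st && (chk acc && run2 f n (step st) (accadd acc st))) = true := h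
      rw [Bool.and_eq_true, Bool.and_eq_true] at h'
      obtain ⟨acc', A', h1, h2⟩ := ih (k + 1) (step st) (accadd acc st) _ _ (by omega) h'.2.2
        (step_rep hR) (accadd_rep hk hR hA)
      refine ⟨acc', A', h1, ?_⟩
      rwa [show k + (n + 1) = k + 1 + n by ring]

theorem pk_get {w n i : ℕ} {f : ℕ → ℕ} (hi : i < n) (hf : ∀ j < n, f j < 2 ^ w) :
    pk w f n / 2 ^ (w * i) % 2 ^ w = f i := by
  rw [pk_div (by omega) (fun j hj => hf j (by omega))]
  obtain ⟨k, hk⟩ : ∃ k, n - i = k + 1 := ⟨n - i - 1, by omega⟩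
  rw [hk, pk_succ', Nat.add_mul_mod_self_left]
  simp only [zero_add]
  exact Nat.mod_eq_of_lt (hf i hi)

theorem fld_eq {n i : ℕ} {f : ℕ → ℕ} (hi : i < n) (hf : ∀ j < n, f j < 2 ^ 48) :
    fld (pk 48 f n) i = f i := by
  rw [fld_def, Nat.shiftRight_eq_div_pow,
    show (281474976710655 : ℕ) = 2 ^ 48 - 1 by norm_num, Nat.and_two_pow_sub_one_eq_mod, pk_get hi hf]

theorem inner_eq (r e V : ℕ) : ∀ n s,
    inner r e V n s = ∑ i ∈ range n, Wi r e (s + i) * fld V (s + i + 1) := by
  intro n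
  induction n with
  | zero => intro s; rfl
  | succ n ih =>
      intro s
      have h : inner r e V (n + 1) s = Wi r e s * fld V (s + 1) + inner r e V n (s + 1) := rfl
      rw [h, ih, sum_range_succ']
      rw [add_comm]
      congr 1
      apply sum_congr rfl
      intro i _
      rw [show s + 1 + i = s + (i + 1) by ring]

theorem kmin_eq (a b : ℕ) : kmin a b = min a b := by
  unfold kmin
  by_cases h : a ≤ b
  · have : Nat.ble a b = true := Nat.ble_eq.mpr h
    rw [this, min_eq_left h]; rfl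
  · have : Nat.ble a b = false := by
      rw [Bool.eq_false_iff]; intro hh; exact h (Nat.ble_eq.mp hh)
    rw [this, min_eq_right (by omega)]; rfl

theorem kT_eq {r e : ℕ} : kT r e = T' r e := by
  unfold kT T'
  by_cases h : e = 0
  · subst h; rfl
  · have : Nat.beq e 0 = false := by
      rw [Bool.eq_false_iff]; intro hh; exact h (Nat.eq_of_beq_eq_true hh)
    rw [this, if_neg h]; rfl

theorem bif_false {a b : ℕ} : (bif false then a else b) = b := rfl

theorem beq_false {e : ℕ} (h : e ≠ 0) : Nat.beq e 0 = false := by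
  rw [Bool.eq_false_iff]; intro hh; exact h (Nat.eq_of_beq_eq_true hh)

theorem Ai_zero (r : ℕ) : Ai r 0 = 4718595 * m (kap r) := rfl

theorem Ai_one {r e : ℕ} (h : e ≠ 0) : Ai r e = 1572865 * (3 * m (kap r) + 1048576) := by
  unfold Ai
  rw [beq_false h, bif_false]

theorem gi_zero (i : ℕ) : gi 0 i = 9437190 * m i := rfl

theorem gi_one {e i : ℕ} (h : e ≠ 0) : gi e i = 3145728 * m i := by
  unfold gi
  rw [beq_false h, bif_false]

theorem Ai_cast (r e : ℕ) : (Ai r e : ℝ) = 4718595 * Aur r e := by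
  unfold Aur
  by_cases h : e = 0
  · subst h
    rw [if_pos rfl, add_zero, Ai_zero]
    push_cast; ring
  · rw [if_neg h, Ai_one h]
    push_cast; ring

theorem gi_cast (e i : ℕ) : (gi e i : ℝ) = 4718595 * g e i := by
  unfold g
  by_cases h : e = 0
  · subst h
    rw [if_pos rfl, gi_zero]
    push_cast; ring
  · rw [if_neg h, gi_one h]
    unfold al
    push_cast; ring

theorem Wi_cast (r e i : ℕ) : (Wi r e i : ℝ) = 4718595 * Wt r e i := by
  have hg : gi e i ≤ gi e (i + 1) := by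
    have h : (gi e i : ℝ) ≤ gi e (i + 1) := by
      rw [gi_cast, gi_cast]
      have := g_mono e (Nat.le_succ i)
      simp only [Nat.succ_eq_add_one] at this
      linarith
    exact_mod_cast h
  have h1 : Wi r e i = min (Ai r e) (gi e (i + 1)) - min (Ai r e) (gi e i) := by
    show kmin _ _ - kmin _ _ = _
    rw [kmin_eq, kmin_eq]
  rw [h1, Nat.cast_sub (min_le_min_left _ hg), Nat.cast_min, Nat.cast_min, Ai_cast, gi_cast, gi_cast]
  unfold Wt
  rw [mul_sub, mul_min_of_nonneg _ _ (by norm_num), mul_min_of_nonneg _ _ (by norm_num)]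

theorem total_eq (acc : List ℕ) (n : ℕ) : total acc n =
    ∑ r ∈ (range n).filter (fun r => r % 3 ≠ 0), (cost1 acc r 0 + cost1 acc r 1) := by
  induction n with
  | zero => rfl
  | succ n ih =>
      have h : total acc (n + 1) = bif Nat.beq (n % 3) 0 then total acc n else
        total acc n + (cost1 acc n 0 + cost1 acc n 1) := rfl
      rw [h, ih, range_add_one, filter_insert]
      by_cases h3 : n % 3 = 0
      · have : Nat.beq (n % 3) 0 = true := by rw [h3]; rfl
        rw [this, if_neg (by omega)]; rfl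
      · have : Nat.beq (n % 3) 0 = false := by
          rw [Bool.eq_false_iff]; intro hh; exact h3 (Nat.eq_of_beq_eq_true hh)
        rw [this, if_pos h3, sum_insert (by simp)]
        show _ + _ = _
        ring

theorem cost1_cast {acc : List ℕ} {A : ℕ → ℕ → ℕ} {n : ℕ} (hn : n - 21 < 4096)
    (hA : AccRep n acc A) {r e : ℕ} (hr : r < 27) (hu : r % 3 ≠ 0) :
    (cost1 acc r e : ℝ) =
      4718595 * ∑ i ∈ Ico (kap (T' r e)) 900, Wt r e i * (A (T' r e) (i + 1) : ℝ) := by
  have hT : T' r e < 27 ∧ T' r e % 3 ≠ 0 := by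
    unfold T'
    split_ifs
    · exact ⟨T0_lt r, T0_unit hu⟩
    · exact ⟨T1_lt r, T1_unit r⟩
  have hkb := kap_bounds _ hT.1 hT.2
  have hlt : ∀ i, A (T' r e) i < 2 ^ 48 := by
    intro i
    have := hA.le (T' r e) i
    calc A (T' r e) i ≤ (n - 21) * 2 ^ 36 := this
      _ < 4096 * 2 ^ 36 := Nat.mul_lt_mul_of_pos_right hn (by positivity)
      _ = 2 ^ 48 := by norm_num
  have h1 : cost1 acc r e = inner r e (nth acc (kT r e)) (900 - kap (kT r e)) (kap (kT r e)) := rfl
  rw [h1, kT_eq, inner_eq, hA.nth_eq _ hT.1 hT.2]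
  push_cast
  rw [mul_sum, sum_Ico_eq_sum_range]
  apply sum_congr rfl
  intro i hi
  have hi' := mem_range.mp hi
  rw [fld_eq (by omega) (fun j _ => hlt j), Wi_cast]
  ring

/-- The cost of the blocks `22 ≤ a ≤ 350`. -/
theorem blocks_small : ∑ n ∈ Ico 21 350, Fc / (27 * 2 ^ (n + 1)) * Cost n ≤ 0.1771 * 1048576 := by
  obtain ⟨st', G', h1, hR⟩ := run1_spec 21 0 st0 G0 dp_run rep0
  rw [Nat.zero_add] at hR
  obtain ⟨acc, A, h2, hA⟩ := run2_spec 329 21 st' acc0 G' _ (le_refl _) h1 hR acc0_rep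
  rw [show 21 + 329 = 350 by norm_num] at hA
  have h3 := Nat.ble_eq.mp h2
  rw [total_eq] at h3
  have h4 : ((∑ r ∈ (range 27).filter (fun r => r % 3 ≠ 0), (cost1 acc r 0 + cost1 acc r 1) : ℕ) : ℝ)
      ≤ 4358461832940274650600191 := by exact_mod_cast h3
  push_cast at h4
  -- swap the sums
  have h5 : ∑ n ∈ Ico 21 350, Fc / (27 * 2 ^ (n + 1)) * Cost n = Fc / 54 *
      ∑ p ∈ ((range 27).filter (fun r => r % 3 ≠ 0)) ×ˢ range 2,
        ∑ i ∈ Ico (kap (T' p.1 p.2)) 900, Wt p.1 p.2 i *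
          ∑ n ∈ Ico 21 350, (D n (T' p.1 p.2) (i + 1) : ℝ) / 2 ^ n := by
    have e1 : ∀ n ∈ Ico 21 350, Fc / (27 * 2 ^ (n + 1)) * Cost n =
        ∑ p ∈ ((range 27).filter (fun r => r % 3 ≠ 0)) ×ˢ range 2,
        ∑ i ∈ Ico (kap (T' p.1 p.2)) 900, Fc / 54 * (Wt p.1 p.2 i *
          ((D n (T' p.1 p.2) (i + 1) : ℝ) / 2 ^ n)) := by
      intro n _
      unfold Cost
      rw [mul_sum]
      apply sum_congr rfl
      intro p _
      rw [mul_sum]
      apply sum_congr rfl
      intro i _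
      rw [pow_succ]
      have : (2 : ℝ) ^ n ≠ 0 := by positivity
      field_simp
      ring
    rw [sum_congr rfl e1, sum_comm, mul_sum]
    apply sum_congr rfl
    intro p _
    rw [sum_comm, mul_sum]
    apply sum_congr rfl
    intro i _
    rw [← mul_sum, ← mul_sum]
  have h6 : ∑ p ∈ ((range 27).filter (fun r => r % 3 ≠ 0)) ×ˢ range 2,
        ∑ i ∈ Ico (kap (T' p.1 p.2)) 900, Wt p.1 p.2 i *
          ∑ n ∈ Ico 21 350, (D n (T' p.1 p.2) (i + 1) : ℝ) / 2 ^ n
      ≤ (∑ r ∈ (range 27).filter (fun r => r % 3 ≠ 0),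
        ((cost1 acc r 0 : ℝ) + cost1 acc r 1)) / (4718595 * 2 ^ 36) := by
    rw [sum_product, sum_div]
    apply sum_le_sum
    intro r hr
    simp only [mem_filter, mem_range] at hr
    rw [sum_range_succ, sum_range_one, add_div]
    have key : ∀ e < 2, ∑ i ∈ Ico (kap (T' r e)) 900, Wt r e i *
          ∑ n ∈ Ico 21 350, (D n (T' r e) (i + 1) : ℝ) / 2 ^ n ≤
          (cost1 acc r e : ℝ) / (4718595 * 2 ^ 36) := by
      intro e he
      have hT : T' r e < 27 ∧ T' r e % 3 ≠ 0 := by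
        unfold T'
        split_ifs
        · exact ⟨T0_lt r, T0_unit hr.2⟩
        · exact ⟨T1_lt r, T1_unit r⟩
      rw [cost1_cast (by norm_num) hA hr.1 hr.2, le_div_iff₀ (by norm_num), mul_comm, mul_assoc]
      apply mul_le_mul_of_nonneg_left _ (by norm_num)
      rw [mul_sum]
      apply sum_le_sum
      intro i _
      have := hA.D_le _ hT.1 hT.2 (i + 1)
      have hw := Wt_nonneg r e i
      calc (2 : ℝ) ^ 36 * (Wt r e i * ∑ n ∈ Ico 21 350, (D n (T' r e) (i + 1) : ℝ) / 2 ^ n)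
          = Wt r e i * ((∑ n ∈ Ico 21 350, (D n (T' r e) (i + 1) : ℝ) / 2 ^ n) * 2 ^ 36) := by ring
        _ ≤ _ := mul_le_mul_of_nonneg_left this hw
    exact add_le_add (key 0 (by norm_num)) (key 1 (by norm_num))
  rw [h5]
  have h7 : (0 : ℝ) ≤ Fc / 54 := by unfold Fc; positivity
  calc Fc / 54 * _ ≤ Fc / 54 * ((∑ r ∈ (range 27).filter (fun r => r % 3 ≠ 0),
        ((cost1 acc r 0 : ℝ) + cost1 acc r 1)) / (4718595 * 2 ^ 36)) :=
        mul_le_mul_of_nonneg_left h6 h7
    _ ≤ Fc / 54 * (4358461832940274650600191 / (4718595 * 2 ^ 36)) := by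
        apply mul_le_mul_of_nonneg_left _ h7
        exact div_le_div_of_nonneg_right h4 (by norm_num)
    _ ≤ _ := by unfold Fc; norm_num

end H1Col
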