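import Mathlib
import Pool.Agent.H1.Col.DPfin

/-! The tail of the cost: a supersolution of the transfer recursion. -/

namespace H1Col

open Finset

/-- Packed table of the supersolution (20 bits per entry, scaled by 32768). -/
def HTAB : ℕ := 0x62b0f627b7624606210b61db861a6761718613ca6107e60d34609ec606a6603616001e5fcdd5f99e5f6605f3245efea5ecb25e97b5e6465e3135dfe25dcb25d9845d6585d32d5d0045ccdd5c9b85c6945c3725c0525bd345ba175b6fc5b3e25b0ca5adb45aaa05a78d5a47c5a16c59e5f59b53598485953f5923858f3358c2f5892c5862c5832d5802f57d3457a39577415744a5715556e6156b6f5687e5658f562a255fb655ccc559e4556fd554175513354e5154b7054891545b4542d853ffd53d2453a4d53777534a3531d052eff52c2f5296152694523c9520ff51e3751b70518ab515e8513265106550da650ae85082c50571502b8500014f1bf4eef44ec3f4e99a4e6f74e4334e16d4decd4dc214d99d4d7094d4a24d2214cf7a4ccdb4ca514c7bc4c5254c28d4bff64bd5c4bacf4b8174b5834b2f64b0604adcc4ab3a4a7114a4954a1ff49f7e49cf949a75497f149569492e54906c48df948b9048925486bf4845c4816b47e7747c05479a7476bd47457471f046f9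146d3146acd467da4657b463164607645ddf45b44458ec4569d4544a451f444fa144ccb44a74448274460e443db4421c43fd443dcb43b7a4391e436d44348b4321842fce42d8142b26428f542698424574220041fbd41d4b41b0d412b14105d40e1140bcb409974075e4051a402d5400963fe6d3fc623fa593f8703f64f3f4413f01d3ee093ebe23e9d63e7c03e59a3e3813e1663df3c3dd173daf33d8d43d6ad3d3be3d0ce3ceb93ccad3caae3c89f3c6993c4893c2863c0673be6d3bc753ba833ba6d3b8783b69e3b4673b1ec3afb63adcb3ab523a91c3a7313a5013a31c3a12d39efb39c8339a963983f3961d393f8391f538fcc38dcf38bef38a10387f0385c9383eb381f53804937e7c37d0637b5b379643777c375bb373e3372053702336e4136c5936a87368623667e364a9362bd360d735ef1359f635839356463547d352a7350d334efd34d1f34b4534980347c53461b3446c342c53412233e6b33bab339e63384733597333e53322f3308632eda32d2632a5a328ad326f0324c1322a23207931ecf31d3831b95319ec31846315a3313f2312533111830faa30f1930d7f30c5d30aad308e7307443059e303a8301ff3004d2fe822fd032fb2f2f98f2f7c52f61f2f41c2f27d2f0b42eefd2ed402eb7e2e9de2e8542e6b82e4f32e3462e19b2e03a2deb02dd7f2dc082daad2d5332d3c1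2d22d2d0cf2cf5c2cdcd2cc4b2caef2c9532c7ba2c62c2c4a32c30b2c1862be532bce12bb6a2ba142b89c2b7342b5bf2b45e2b2bb2b15a2aff42ae9b2ae702ad0c2abda2aa812a8a92a6d22a57b2a39a2a1b92a06a29e8d29d4229be729a9b29832296de294f52936b291df2905328e7328ced28ba128a552890e2873b285ea284382832e28171280e427fb227e3727ce227bc627a7e27954277f8276a02754a273f62722b270c426f8e26e1a26cdf26b6f26a272691f267a5266752651b263ca262802612825fd125e8f25d4025c1025ab6259a525888257692542c252e6251ce24eb224d8f24c5824b3c24a2a24902245bc2449c243662421b240f023ed623dab23c9523b7923a48239272360f234e9233c02335523284231802305c2300422ef722e0222d0e22bc822a752297322818226ce225ce224332234122241220fd21f6f21e6e21d1f21bcf21a9a21931217eb216d1215d22148b2132c211e7210e820fbb20ee320db620d0e2045c203502021c20154200681ff451fe411fd721fc7b1fb461fa181f90b1f7db1f6d11f59a1f48b1f3a91f2db1f1d91f0f51eff81ef2a1eddb1ecf41ebfa1eb071eab51e9b31e9081e80f1e7361e6651e5921e38f1e29b1e1c41dfe01df081de141dd451db671da821d88c1d7c11d6e11d60b1d4141d2b81d1d81d0ff1d02c1cf471ce6a1ccc11cbfa1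ca0a1c98c1c8d51c7191c6351c5d51c4fc1c4621c3b61c2c71c1e21c11b1bf211be3e1bd861bc801bbc51bb001ba241b9ed1b8c71b8391b75c1b6711b57b1b47e1b3ac1b2e81b20a1b11e1b00b1af2c1ae7c1adab1ace01abdb1ab501a6a91a5e91a51e1a47c1a3c51a32219e6519dc719cf819c0f19b5119a73199a1198fd1982f197581969019209191301909418fc518f9118f0018e2518da418d0118c5818bd818b3918a81189e41892418886187e8186a71861e1858b18463183ca1832c1828c1818c180c217f9317efc17e6017dbe17c9217b3117a8e179f31795d178c61783d17782167e01675516655165ee1656e16464163c91638f163071620616189160e715fd015f4215e2215d8515d1715c9015c1815b8d15b0015ac1159811591b1588d157fa1575b156b71569c1561315580155091548f153e815355152ce15240151c015120150aa14e2014d8c14d0714c9c14c2214bce1492c148a41481e147901471214689145ff145df14584142ec14263141d313f7c13ee613e8413dee13db713d5f13cd613c6d13bee139771390a138a313844137cc1374e136e81367f135d4135c213565134ed13447133c6133741331413266131e41312e130c41306e1300712f5412e8812e2412dd412d6b12d1812ca612c2f12c18123ef1238d122f41226512223121811211b120e8120901200011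f5f11769116c71167d115e8115841153a114e1114ce1148b11437113921135f112a611271111d61117511115110ac110961105010ff810fa710f6810f0310ef210e4f10dfa10da210d5410cf010ca210b5210af810aa410a5610a14109e9108800ebe50eba00eba00eb560eb150eace0ea870ea760ea470e8f00e8aa0e85f0e72a0e6dc0e6a90e65c0e6400e6400e6120e5cc0e5950e5540e40e0e3d50e3a00e36f0e3310e2f00e2bc0e2850e22d0e2240e2240e1f40e1b60e1600e11d0e0f30e0c10e0670e0240dfc60df8f0df630df2e0df2e0ded10de680de340de0b0ddd50ddaa0dd6f0dd310dd250d8ee0d8bc0d86c0d86c0d8230d8010d7ad0d7780d75e0d7310d6e60d6930d2760d2220d1fc0d1fc0d1b00d17b0d1550d1270d11d0d0fb0d0d00d07b0d0600d0010d0010cfe50cf950cf630cf320cefb0cef00cecb0ce9e0ce740ce540ce540ce200ce170cdc20cd970cd690cd410cd0d0cce50cc370cc370cc090cbde0cbb50cb930cb7d0cac20bbfb0bbd80bbd80bbd80bbb20bb900bb6c0bb470bb3e0bb260ba750ba500ba2a0ba2a0b98a0b9620b9480b9200b9110b9110b8f90b8d50b8d50b8b90b8970b7ef0b7d10b7b60b79d0b77d0b75b0b75b0b7400b7240b6f60b6f10b6f10b6d90800108001080010800108001080010800108001080010800108001080010800108001080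01080010800108001080010800108001080010800108001080010800108001080010800108001080010800108001080010800108001080010800108001080010800108001080010800108001080010800108001080010800108001080010800108001080010800108001080010800108001080010800108001080010800108001080010800108001080010800108001080010800108001080010800108001080010800108001080010800108001080010800108001080010800108001080010800108001080010800108001080010800108001080010800108001080010800108001080010800108001080010800108001080010800108001080010800108001080010800108001080010800108001080010800108001080010800108001080010800108001080010800108001080010800108001080010800108001080010800108001080010800108001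

def HT (i : ℕ) : ℕ := Nat.land (Nat.shiftRight HTAB (Nat.mul 20 (Nat.sub i 339))) 1048575

def HT0 (i : ℕ) : ℕ := bif Nat.ble i 338 then 0 else HT i

def chkT (k : ℕ) : Bool :=
  and (Nat.ble (125 * (HT0 (339 + k - 147) + HT (J (339 + k)))) (242 * HT (339 + k)))
    (and (Nat.ble 32768 (HT (339 + k))) (Nat.ble (J (339 + k)) 1422))

theorem chkT_all : allBelow chkT 984 = true := by decide +kernel

def chkB (k : ℕ) : Bool :=
  Nat.ble (HT (1323 - (k + 1)) * 472 ^ (k + 1)) (327680 * 471 ^ (k + 1))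

theorem chkB_all : allBelow chkB 147 = true := by decide +kernel

def chkX (k : ℕ) : Bool := Nat.ble (327680 * 472 ^ k) (HT (1323 + k) * 471 ^ k)

theorem chkX_all : allBelow chkX 100 = true := by decide +kernel

/-- The supersolution. -/
noncomputable def H (i : ℕ) : ℝ :=
  if i ≤ 338 then 0 else if i < 1323 then (HT i : ℝ) / 32768 else 10 * (472 / 471 : ℝ) ^ (i - 1323)

theorem H_zero {i : ℕ} (h : i ≤ 338) : H i = 0 := by unfold H; rw [if_pos h]

theorem H_tab {i : ℕ} (h : 338 < i) (h' : i < 1323) : H i = (HT i : ℝ) / 32768 := by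
  unfold H; rw [if_neg (by omega), if_pos h']

theorem H_top {i : ℕ} (h : 1323 ≤ i) : H i = 10 * (472 / 471 : ℝ) ^ (i - 1323) := by
  unfold H; rw [if_neg (by omega), if_neg (by omega)]

theorem H_nonneg (i : ℕ) : 0 ≤ H i := by
  unfold H
  split_ifs
  · exact le_refl _
  · positivity
  · positivity

theorem HT0_of_le {i : ℕ} (h : i ≤ 338) : HT0 i = 0 := by
  unfold HT0
  rw [Nat.ble_eq.mpr h]; rfl

theorem HT0_of_gt {i : ℕ} (h : 338 < i) : HT0 i = HT i := by
  unfold HT0
  have : Nat.ble i 338 = false := by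
    rw [Bool.eq_false_iff]; intro hh; have := Nat.ble_eq.mp hh; omega
  rw [this, bif_false]

theorem H_eq_HT0 {i : ℕ} (h : i < 1323) : H i = (HT0 i : ℝ) / 32768 := by
  rcases Nat.lt_or_ge 338 i with h1 | h1
  · rw [H_tab h1 h, HT0_of_gt h1]
  · rw [H_zero h1, HT0_of_le h1]; simp

theorem H_le_HT {i : ℕ} (h : 338 < i) (h' : i < 1423) : H i ≤ (HT i : ℝ) / 32768 := by
  rcases Nat.lt_or_ge i 1323 with h1 | h1
  · rw [H_tab h h1]
  · rw [H_top h1]
    have hX0 := allBelow_spec chkX_all (i - 1323) (by omega)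
    unfold chkX at hX0
    rw [show 1323 + (i - 1323) = i by omega] at hX0
    have hX := Nat.ble_eq.mp hX0
    have hX' : (327680 : ℝ) * 472 ^ (i - 1323) ≤ (HT i : ℝ) * 471 ^ (i - 1323) := by
      exact_mod_cast hX
    rw [div_pow, le_div_iff₀ (by norm_num), mul_div_assoc', div_mul_eq_mul_div,
      div_le_iff₀ (by positivity)]
    linarith

theorem J_le {i : ℕ} (h : 1195 ≤ i) : J i ≤ i + 87 := by
  unfold J
  have h1 : cnt TH i ≤ 1 := by
    unfold TH
    rw [cnt_cons]
    have h2 : ∀ l : List ℕ, (∀ t ∈ l, t ≤ 1195) → cnt l i = 0 := fun l hl =>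
      cnt_eq_zero (fun t ht => le_trans (hl t ht) h)
    rw [h2 _ (by decide)]
    split_ifs <;> omega
  omega

theorem J_ge (i : ℕ) : i + 86 ≤ J i := by unfold J; omega

theorem one_le_H {i : ℕ} (h : 338 < i) : 1 ≤ H i := by
  rcases Nat.lt_or_ge i 1323 with h1 | h1
  · rw [H_tab h h1]
    have hT := allBelow_spec chkT_all (i - 339) (by omega)
    unfold chkT at hT
    rw [Bool.and_eq_true, Bool.and_eq_true, show 339 + (i - 339) = i by omega] at hT
    have h2 := Nat.ble_eq.mp hT.2.1
    rw [le_div_iff₀ (by norm_num), one_mul]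
    exact_mod_cast h2
  · rw [H_top h1]
    have : (1 : ℝ) ≤ (472 / 471 : ℝ) ^ (i - 1323) := one_le_pow₀ (by norm_num)
    linarith

theorem pow_num : ((471 / 472 : ℝ)) ^ 147 + (472 / 471 : ℝ) ^ 87 ≤ 242 / 125 := by norm_num

theorem H_step {i : ℕ} (h : 338 < i) : H (i - 147) + H (J i) ≤ 242 / 125 * H i := by
  have hJ := J_ge i
  rcases Nat.lt_or_ge i 1323 with h1 | h1
  · have hT := allBelow_spec chkT_all (i - 339) (by omega)
    unfold chkT at hT
    rw [Bool.and_eq_true, Bool.and_eq_true, show 339 + (i - 339) = i by omega] at hT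
    have h2 := Nat.ble_eq.mp hT.1
    have h3 := Nat.ble_eq.mp hT.2.2
    have h4 := H_le_HT (i := J i) (by omega) (by omega)
    rw [H_eq_HT0 (by omega), H_tab h h1]
    have h5 : (125 : ℝ) * (HT0 (i - 147) + HT (J i)) ≤ 242 * HT i := by exact_mod_cast h2
    have h6 : (HT0 (i - 147) : ℝ) / 32768 + (HT (J i) : ℝ) / 32768 ≤
        242 / 125 * ((HT i : ℝ) / 32768) := by
      rw [← add_div, mul_div_assoc', div_le_div_iff_of_pos_right (by norm_num),
        div_mul_eq_mul_div, le_div_iff₀ (by norm_num)]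
      linarith
    linarith
  · have hJ2 := J_le (i := i) (by omega)
    set q : ℝ := (472 / 471 : ℝ) ^ (i - 1323) with hq
    have hqp : 0 < q := by positivity
    have h2 : H (J i) ≤ 10 * q * (472 / 471 : ℝ) ^ 87 := by
      rw [H_top (by omega), mul_assoc, hq, ← pow_add]
      apply mul_le_mul_of_nonneg_left _ (by norm_num)
      apply pow_le_pow_right₀ (by norm_num)
      omega
    have h3 : H (i - 147) ≤ 10 * q * (471 / 472 : ℝ) ^ 147 := by
      rcases Nat.lt_or_ge i 1470 with h4 | h4
      · rw [H_tab (by omega) (by omega)]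
        have hB := allBelow_spec chkB_all (1323 - (i - 147) - 1) (by omega)
        unfold chkB at hB
        rw [show 1323 - (i - 147) - 1 + 1 = 1470 - i by omega,
          show 1323 - (1470 - i) = i - 147 by omega] at hB
        have hB' := Nat.ble_eq.mp hB
        have hB2 : (HT (i - 147) : ℝ) * 472 ^ (1470 - i) ≤ 327680 * 471 ^ (1470 - i) := by
          exact_mod_cast hB'
        have e1 : q * (471 / 472 : ℝ) ^ 147 = (471 / 472 : ℝ) ^ (1470 - i) := by
          have e2 : (471 / 472 : ℝ) ^ 147 = (471 / 472 : ℝ) ^ (i - 1323) *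
              (471 / 472 : ℝ) ^ (1470 - i) := by
            rw [← pow_add, show i - 1323 + (1470 - i) = 147 by omega]
          rw [hq, e2, ← mul_assoc, ← mul_pow]
          norm_num
        rw [mul_assoc, e1, div_pow, div_le_iff₀ (by norm_num)]
        have h5 : (0 : ℝ) < 472 ^ (1470 - i) := by positivity
        rw [mul_comm (10 : ℝ), mul_assoc, div_mul_eq_mul_div, le_div_iff₀ h5]
        linarith
      · rw [H_top (by omega)]
        have e1 : (472 / 471 : ℝ) ^ (i - 147 - 1323) = q * (471 / 472 : ℝ) ^ 147 := by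
          have e2 : i - 1323 = (i - 147 - 1323) + 147 := by omega
          rw [hq, e2, pow_add, mul_assoc, ← mul_pow]
          norm_num
        rw [e1, mul_assoc]
    rw [H_top h1, ← hq]
    have := pow_num
    calc H (i - 147) + H (J i) ≤ 10 * q * ((471 / 472 : ℝ) ^ 147 + (472 / 471 : ℝ) ^ 87) := by
          rw [mul_add]; exact add_le_add h3 h2
      _ ≤ 10 * q * (242 / 125) := mul_le_mul_of_nonneg_left this (by positivity)
      _ = _ := by ring

theorem D_le_H (n : ℕ) : ∀ r < 27, r % 3 ≠ 0 → ∀ i, (D n r i : ℝ) ≤ (242 / 125 : ℝ) ^ n * H i := by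
  induction n with
  | zero =>
      intro r hr hu i
      have hk := (kap_bounds r hr hu).1
      have h := D_zero_le (r := r) (i := i)
      rw [pow_zero, one_mul]
      split_ifs at h with h1
      · have h2 : (D 0 r i : ℝ) ≤ 1 := by exact_mod_cast h
        exact le_trans h2 (one_le_H (by omega))
      · have h2 : D 0 r i = 0 := by omega
        rw [h2]
        simpa using H_nonneg i
  | succ n ih =>
      intro r hr hu i
      have hk := (kap_bounds r hr hu).1
      have h := D_succ_le (n := n) (i := i) hr hu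
      split_ifs at h with h1
      · have h2 := ih (T0 r) (T0_lt r) (T0_unit hu) (i - 147)
        have h3 := ih (T1 r) (T1_lt r) (T1_unit r) (J i)
        have h4 := H_step (i := i) (by omega)
        have h5 : (D (n + 1) r i : ℝ) ≤ (D n (T0 r) (i - 147) : ℝ) + (D n (T1 r) (J i) : ℝ) := by
          exact_mod_cast h
        have hp : (0 : ℝ) < (242 / 125 : ℝ) ^ n := by positivity
        calc (D (n + 1) r i : ℝ) ≤ (242 / 125 : ℝ) ^ n * H (i - 147) + (242 / 125 : ℝ) ^ n * H (J i) := by
              linarith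
          _ = (242 / 125 : ℝ) ^ n * (H (i - 147) + H (J i)) := by ring
          _ ≤ (242 / 125 : ℝ) ^ n * (242 / 125 * H i) := mul_le_mul_of_nonneg_left h4 hp.le
          _ = _ := by rw [pow_succ]; ring
      · have h2 : D (n + 1) r i = 0 := by omega
        rw [h2]
        have := H_nonneg i
        simp only [Nat.cast_zero]
        positivity

/-- `∑_{i in [s, s+n)} Wi r e i * HT (i+1)`. -/
def innerH (r e : ℕ) (n : ℕ) : ℕ → ℕ :=
  @Nat.rec (fun _ => ℕ → ℕ) (fun _ => 0)
    (fun _ ih s => Nat.add (Nat.mul (Wi r e s) (HT (Nat.succ s))) (ih (Nat.succ s))) n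

def cost1H (r e : ℕ) : ℕ := innerH r e (Nat.sub 900 (kap (kT r e))) (kap (kT r e))

def totalH (n : ℕ) : ℕ :=
  @Nat.rec (fun _ => ℕ) 0 (fun r ih => bif Nat.beq (r % 3) 0 then ih else
    Nat.add ih (Nat.add (cost1H r 0) (cost1H r 1))) n

theorem totalH_le : Nat.ble (totalH 27) 2438651981339092716 = true := by decide +kernel

theorem innerH_eq (r e : ℕ) : ∀ n s,
    innerH r e n s = ∑ i ∈ range n, Wi r e (s + i) * HT (s + i + 1) := by
  intro n
  induction n with
  | zero => intro s; rfl
  | succ n ih =>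
      intro s
      have h : innerH r e (n + 1) s = Wi r e s * HT (s + 1) + innerH r e n (s + 1) := rfl
      rw [h, ih, sum_range_succ']
      rw [add_comm]
      congr 1
      apply sum_congr rfl
      intro i _
      rw [show s + 1 + i = s + (i + 1) by ring]

theorem totalH_eq (n : ℕ) : totalH n =
    ∑ r ∈ (range n).filter (fun r => r % 3 ≠ 0), (cost1H r 0 + cost1H r 1) := by
  induction n with
  | zero => rfl
  | succ n ih =>
      have h : totalH (n + 1) = bif Nat.beq (n % 3) 0 then totalH n else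
        totalH n + (cost1H n 0 + cost1H n 1) := rfl
      rw [h, ih, range_add_one, filter_insert]
      by_cases h3 : n % 3 = 0
      · have : Nat.beq (n % 3) 0 = true := by rw [h3]; rfl
        rw [this, if_neg (by omega)]; rfl
      · rw [beq_false h3, if_pos h3, sum_insert (by simp), bif_false]
        ring

theorem cost1H_cast {r e : ℕ} (hr : r < 27) (hu : r % 3 ≠ 0) :
    (cost1H r e : ℝ) =
      4718595 * 32768 * ∑ i ∈ Ico (kap (T' r e)) 900, Wt r e i * H (i + 1) := by
  have hT : T' r e < 27 ∧ T' r e % 3 ≠ 0 := by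
    unfold T'
    split_ifs
    · exact ⟨T0_lt r, T0_unit hu⟩
    · exact ⟨T1_lt r, T1_unit r⟩
  have hkb := kap_bounds _ hT.1 hT.2
  have h1 : cost1H r e = innerH r e (900 - kap (kT r e)) (kap (kT r e)) := rfl
  rw [h1, kT_eq, innerH_eq]
  push_cast
  rw [mul_sum, sum_Ico_eq_sum_range]
  apply sum_congr rfl
  intro i hi
  have hi' := mem_range.mp hi
  rw [H_tab (by omega) (by omega), Wi_cast]
  ring

/-- The cost of the blocks `a ≥ 351`. -/
theorem blocks_large (A : ℕ) : ∑ n ∈ Ico 350 A, Fc / (27 * 2 ^ (n + 1)) * Cost n ≤ 0.0001 * 1048576 := by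
  set S : ℝ := ∑ p ∈ ((range 27).filter (fun r => r % 3 ≠ 0)) ×ˢ range 2,
        ∑ i ∈ Ico (kap (T' p.1 p.2)) 900, Wt p.1 p.2 i * H (i + 1) with hS
  have hS0 : S ≤ 2438651981339092716 / (4718595 * 32768) := by
    have h3 := Nat.ble_eq.mp totalH_le
    rw [totalH_eq] at h3
    have h4 : ((∑ r ∈ (range 27).filter (fun r => r % 3 ≠ 0), (cost1H r 0 + cost1H r 1) : ℕ) : ℝ)
      ≤ 2438651981339092716 := by exact_mod_cast h3
    push_cast at h4
    rw [le_div_iff₀ (by norm_num)]
    refine le_trans (le_of_eq ?_) h4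
    rw [hS, sum_product, sum_mul]
    apply sum_congr rfl
    intro r hr
    simp only [mem_filter, mem_range] at hr
    rw [sum_range_succ, sum_range_one, cost1H_cast hr.1 hr.2, cost1H_cast hr.1 hr.2]
    ring
  have hC : ∀ n, Cost n ≤ (242 / 125 : ℝ) ^ n * S := by
    intro n
    unfold Cost
    rw [hS, mul_sum]
    apply sum_le_sum
    rintro ⟨r, e⟩ hp
    simp only [mem_product, mem_filter, mem_range] at hp
    obtain ⟨⟨hr, hru⟩, he⟩ := hp
    have hT : T' r e < 27 ∧ T' r e % 3 ≠ 0 := by
      unfold T'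
      split_ifs
      · exact ⟨T0_lt r, T0_unit hru⟩
      · exact ⟨T1_lt r, T1_unit r⟩
    simp only
    rw [mul_sum]
    apply sum_le_sum
    intro i _
    have h1 := D_le_H n _ hT.1 hT.2 (i + 1)
    have h2 := mul_le_mul_of_nonneg_left h1 (Wt_nonneg r e i)
    linarith
  have hF : (0 : ℝ) ≤ Fc := by unfold Fc; positivity
  have hterm : ∀ n ∈ Ico 350 A, Fc / (27 * 2 ^ (n + 1)) * Cost n ≤ Fc / 54 * S * (121 / 125 : ℝ) ^ n := by
    intro n _
    have h1 := mul_le_mul_of_nonneg_left (hC n) (show (0 : ℝ) ≤ Fc / (27 * 2 ^ (n + 1)) by positivity)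
    refine le_trans h1 (le_of_eq ?_)
    have e1 : (242 / 125 : ℝ) ^ n = 2 ^ n * (121 / 125 : ℝ) ^ n := by
      rw [← mul_pow]; norm_num
    rw [e1, pow_succ]
    have : (2 : ℝ) ^ n ≠ 0 := by positivity
    field_simp
    ring
  refine le_trans (sum_le_sum hterm) ?_
  rw [← mul_sum]
  have hgeo := geom_sum_Ico_le_of_lt_one (x := (121 / 125 : ℝ)) (m := 350) (n := A) (by norm_num)
    (by norm_num)
  have hS1 : 0 ≤ S := by
    rw [hS]
    apply sum_nonneg
    intro p _
    apply sum_nonneg
    intro i _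
    exact mul_nonneg (Wt_nonneg _ _ _) (H_nonneg _)
  have hp0 : (121 / 125 : ℝ) ^ 175 ≤ 1 / 292 := by norm_num
  have hp : (121 / 125 : ℝ) ^ 350 ≤ 1 / 85000 := by
    have e : (121 / 125 : ℝ) ^ 350 = ((121 / 125 : ℝ) ^ 175) ^ 2 := by rw [← pow_mul]
    rw [e]
    calc ((121 / 125 : ℝ) ^ 175) ^ 2 ≤ (1 / 292) ^ 2 := pow_le_pow_left₀ (by positivity) hp0 2
      _ ≤ 1 / 85000 := by norm_num
  calc Fc / 54 * S * ∑ i ∈ Ico 350 A, (121 / 125 : ℝ) ^ i
      ≤ Fc / 54 * (2438651981339092716 / (4718595 * 32768)) * ((1 / 85000) / (1 - 121 / 125)) := by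
        apply mul_le_mul _ _ (by apply sum_nonneg; intro i _; positivity) (by positivity)
        · exact mul_le_mul_of_nonneg_left hS0 (by positivity)
        · refine le_trans hgeo ?_
          exact div_le_div_of_nonneg_right hp (by norm_num)
    _ ≤ _ := by unfold Fc; norm_num

end H1Col
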