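import Mathlib
import Pool.Agent.H1.Col.Tail

/-! The unconditional bound for the product over an orbit. -/

namespace H1Col

open Finset

theorem Cost_nonneg (n : ℕ) : 0 ≤ Cost n := by
  unfold Cost
  apply sum_nonneg
  intro p _
  apply sum_nonneg
  intro i _
  exact mul_nonneg (Wt_nonneg _ _ _) (by positivity)

theorem blocks_all (A : ℕ) : ∑ a ∈ Ico 22 A, ∑ y ∈ block a, wp y / y ≤ 0.1772 * 1048576 := by
  have h1 : ∑ a ∈ Ico 22 A, ∑ y ∈ block a, wp y / y ≤
      ∑ n ∈ Ico 21 (A - 1), Fc / (27 * 2 ^ (n + 1)) * Cost n := by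
    rcases Nat.lt_or_ge 22 A with h | h
    · have e : Ico 22 A = (Ico 21 (A - 1)).image (fun n => n + 1) := by
        rw [image_add_right_Ico]
        congr 1
        omega
      rw [e, sum_image (by intro x _ y _ hxy; simpa using hxy)]
      exact sum_le_sum (fun n _ => block_bound n)
    · rw [Ico_eq_empty (by omega), Ico_eq_empty (by omega)]
      simp
  have hnn : ∀ n, 0 ≤ Fc / (27 * 2 ^ (n + 1)) * Cost n := by
    intro n
    have := Cost_nonneg n
    unfold Fc
    positivity
  have h2 : ∑ n ∈ Ico 21 (A - 1), Fc / (27 * 2 ^ (n + 1)) * Cost n ≤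
      ∑ n ∈ Ico 21 350, Fc / (27 * 2 ^ (n + 1)) * Cost n +
      ∑ n ∈ Ico 350 (A - 1), Fc / (27 * 2 ^ (n + 1)) * Cost n := by
    have hsub : Ico 21 (A - 1) ⊆ Ico 21 350 ∪ Ico 350 (A - 1) := by
      intro n hn
      simp only [mem_Ico, mem_union] at hn ⊢
      omega
    refine le_trans (sum_le_sum_of_subset_of_nonneg hsub (fun n _ _ => hnn n)) ?_
    rw [sum_union]
    rw [disjoint_left]
    intro n h3 h4
    simp only [mem_Ico] at h3 h4
    omega
  have h3 := blocks_small
  have h4 := blocks_large (A - 1)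
  linarith

theorem sum_blocks (f : ℕ → ℝ) : ∀ A, 22 ≤ A →
    ∑ y ∈ (Ico (135 * 2 ^ 22) (135 * 2 ^ A)).filter (fun x => x % 3 ≠ 0), f y =
      ∑ a ∈ Ico 22 A, ∑ y ∈ block a, f y := by
  intro A hA
  induction A, hA using Nat.le_induction with
  | base => simp
  | succ A hA ih =>
      rw [sum_Ico_succ_top hA, ← ih]
      unfold block
      rw [sum_filter, sum_filter, sum_filter]
      rw [sum_Ico_consecutive]
      · exact Nat.mul_le_mul_left _ (Nat.pow_le_pow_right (by norm_num) hA)
      · exact Nat.mul_le_mul_left _ (Nat.pow_le_pow_right (by norm_num) (by omega))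

theorem unit_iter {x : ℕ} (h : x % 3 ≠ 0) (n : ℕ) : T^[n] x % 3 ≠ 0 := by
  induction n with
  | zero => simpa using h
  | succ n ih =>
      rw [iter_succ]
      rcases Nat.mod_two_eq_zero_or_one (T^[n] x) with e | e
      · rw [T_even e]; omega
      · rw [T_odd e]; omega

theorem orbit_cost {x N : ℕ} (hu : x % 3 ≠ 0) (hB : ∀ i < N, 566231040 ≤ T^[i] x)
    (hinj : ∀ i < N, ∀ j < N, T^[i] x = T^[j] x → i = j) :
    ∑ i ∈ range N, wp (T^[i] x) / (T^[i] x : ℕ) ≤ 0.1772 * 1048576 := by
  set M := ∑ i ∈ range N, T^[i] x + 22 with hM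
  have hlt : ∀ i < N, T^[i] x < 135 * 2 ^ M := by
    intro i hi
    have h1 : T^[i] x ≤ ∑ i ∈ range N, T^[i] x :=
      single_le_sum (f := fun i => T^[i] x) (fun _ _ => Nat.zero_le _) (mem_range.mpr hi)
    have h2 : M < 2 ^ M := Nat.lt_two_pow_self
    omega
  have h1 : ∑ i ∈ range N, wp (T^[i] x) / (T^[i] x : ℕ) =
      ∑ y ∈ (range N).image (fun i => T^[i] x), wp y / (y : ℕ) := by
    rw [sum_image]
    intro i hi j hj hij
    simp only [coe_range, Set.mem_Iio] at hi hj
    exact hinj i hi j hj hij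
  rw [h1]
  have hsub : (range N).image (fun i => T^[i] x) ⊆
      (Ico (135 * 2 ^ 22) (135 * 2 ^ M)).filter (fun x => x % 3 ≠ 0) := by
    intro y hy
    simp only [mem_image, mem_range] at hy
    obtain ⟨i, hi, rfl⟩ := hy
    simp only [mem_filter, mem_Ico]
    refine ⟨⟨?_, hlt i hi⟩, unit_iter hu i⟩
    have := hB i hi
    norm_num
    exact this
  refine le_trans (sum_le_sum_of_subset_of_nonneg hsub ?_) ?_
  · intro y _ _
    exact div_nonneg (wp_nonneg y) (by positivity)
  · rw [sum_blocks _ M (by omega)]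
    exact blocks_all M

theorem Sm_add (x m n : ℕ) : Sm x (m + n) = Sm x m + Sm (T^[m] x) n := by
  induction n with
  | zero => simp [Sm]
  | succ n ih =>
      rw [← Nat.add_assoc, Sm_succ, Sm_succ, ih, Nat.add_comm m n, iter_add]
      ring

theorem term_le {y : ℕ} (h : 566231040 ≤ y) :
    (if y % 2 = 1 then 1 / (3 * (y : ℝ)) else 0) ≤ 1 / (3 * 566231040) := by
  have h' : (566231040 : ℝ) ≤ y := by exact_mod_cast h
  split_ifs
  · apply one_div_le_one_div_of_le (by norm_num)
    linarith
  · norm_num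

theorem m605 : m 605 ≤ 10000000 := by decide +kernel

/-- The sum over a descent below `B` for a starting point prime to `3`. -/
theorem Sm_unit {x N : ℕ} (hu : x % 3 ≠ 0) (hB : ∀ i < N, 566231040 ≤ T^[i] x)
    (hlast : T^[N] x < 566231040)
    (hinj : ∀ i < N, ∀ j < N, T^[i] x = T^[j] x → i = j) : Sm x N ≤ 0.17725 := by
  rcases Nat.eq_zero_or_pos N with rfl | hN
  · simp [Sm]; norm_num
  classical
  by_cases hex : ∃ i, i < N ∧ i + nx (T^[i] x) < N
  · -- the last such index
    set P : ℕ → Prop := fun i => i < N ∧ i + nx (T^[i] x) < N with hP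
    obtain ⟨i, hi⟩ := hex
    set i0 := Nat.findGreatest P N with hi0
    have hPi0 : P i0 := Nat.findGreatest_spec (P := P) (m := i) (by omega) hi
    have hmax : ¬ P (i0 + 1) := by
      intro hc
      have h1 : i0 + 1 ≤ Nat.findGreatest P N := Nat.le_findGreatest (by have := hc.1; omega) hc
      omega
    obtain ⟨h1, h2⟩ := hPi0
    -- telescoping up to i0
    have ht := telescope x i0 (fun i hi => hB i (by omega))
    have hK : K (nx (T^[i0] x)) (T^[i0] x) / (T^[i0] x : ℕ) ≤ (m 605 : ℝ) / 566231040 := by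
      apply K_div_le (unit_iter hu i0)
      intro j hj
      rw [← iter_add, Nat.add_comm]
      exact hB (i0 + j) (by omega)
    have hc := orbit_cost (x := x) (N := i0) hu (fun i hi => hB i (by omega))
      (fun i hi j hj => hinj i (by omega) j (by omega))
    have hK0 : 0 ≤ K (nx x) x / x := div_nonneg (K_nonneg _ _) (by positivity)
    have hm : (m 605 : ℝ) ≤ 10000000 := by exact_mod_cast m605
    have hS1 : Sm x i0 ≤ 0.17721 := by
      have h3 : (m 605 : ℝ) / 566231040 ≤ 10000000 / 566231040 :=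
        div_le_div_of_nonneg_right hm (by norm_num)
      have h4 : (1048576 : ℝ) * Sm x i0 ≤ 1048576 * 0.17721 := by
        norm_num at h3 hc ⊢
        linarith
      linarith
    have hsplit : Sm x N = Sm x i0 + (if (T^[i0] x) % 2 = 1 then 1 / (3 * ((T^[i0] x : ℕ) : ℝ)) else 0)
        + Sm (T^[i0 + 1] x) (N - (i0 + 1)) := by
      have e : N = (i0 + 1) + (N - (i0 + 1)) := by omega
      conv_lhs => rw [e]
      rw [Sm_add, Sm_succ]
    have ht1 := term_le (hB i0 h1)
    have hrest : Sm (T^[i0 + 1] x) (N - (i0 + 1)) ≤ 14 / (3 * 566231040) := by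
      rcases Nat.lt_or_ge (i0 + 1) N with h3 | h3
      · have h4 : N ≤ i0 + 1 + nx (T^[i0 + 1] x) := by
          by_contra hcc
          exact hmax ⟨h3, by omega⟩
        apply short_descent (hB _ h3) (by omega)
        · intro j hj
          rw [← iter_add, Nat.add_comm]
          exact hB _ (by omega)
        · rw [← iter_add, Nat.sub_add_cancel (by omega)]
          exact hlast
      · rw [Nat.sub_eq_zero_of_le h3]
        simp [Sm]
        norm_num
    rw [hsplit]
    norm_num at ht1 hrest hS1 ⊢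
    linarith
  · push Not at hex
    have h0 := hex 0 hN
    simp only [Function.iterate_zero, id_eq, zero_add] at h0
    have hx : 566231040 ≤ x := by simpa using hB 0 hN
    have := short_descent hx h0 hB hlast
    norm_num at this ⊢
    linarith

/-- The same for every starting point. -/
theorem Sm_all : ∀ (N x : ℕ), (∀ i < N, 566231040 ≤ T^[i] x) → T^[N] x < 566231040 →
    (∀ i < N, ∀ j < N, T^[i] x = T^[j] x → i = j) → Sm x N ≤ 0.1773 := by
  intro N
  induction N with
  | zero => intro x _ _ _; simp [Sm]; norm_num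
  | succ N ih =>
      intro x hB hlast hinj
      by_cases h3 : x % 3 = 0
      · have hx : 566231040 ≤ x := by simpa using hB 0 (by omega)
        have hs : Sm x (N + 1) = (if x % 2 = 1 then 1 / (3 * (x : ℝ)) else 0) + Sm (T x) N := by
          rw [Nat.add_comm N 1, Sm_add]
          congr 1
          unfold Sm
          rw [sum_range_one]
          rfl
        have hB' : ∀ i < N, 566231040 ≤ T^[i] (T x) := by
          intro i hi
          rw [← iter_succ_left]
          exact hB (i + 1) (by omega)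
        have hlast' : T^[N] (T x) < 566231040 := by
          rw [← iter_succ_left]; exact hlast
        have hinj' : ∀ i < N, ∀ j < N, T^[i] (T x) = T^[j] (T x) → i = j := by
          intro i hi j hj h
          rw [← iter_succ_left, ← iter_succ_left] at h
          have := hinj (i + 1) (by omega) (j + 1) (by omega) h
          omega
        rcases Nat.mod_two_eq_zero_or_one x with e | e
        · rw [hs, if_neg (by omega), zero_add]
          exact ih (T x) hB' hlast' hinj'
        · have huT : T x % 3 ≠ 0 := by rw [T_odd e]; omega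
          have h4 := Sm_unit huT hB' hlast' hinj'
          have h5 := term_le hx
          rw [hs]
          norm_num at h4 h5 ⊢
          linarith
      · have := Sm_unit h3 hB hlast hinj
        norm_num at this ⊢
        linarith

/-- Minimality of the hitting time gives distinctness. -/
theorem iter_inj {x N : ℕ} (h1 : T^[N] x = 1) (hmin : ∀ i < N, T^[i] x ≠ 1) :
    ∀ i < N, ∀ j < N, T^[i] x = T^[j] x → i = j := by
  have key : ∀ i j, i < j → j < N → T^[i] x ≠ T^[j] x := by
    intro i j hij hj he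
    have h2 : T^[N - j] (T^[j] x) = 1 := by rw [← iter_add, Nat.sub_add_cancel hj.le]; exact h1
    rw [← he, ← iter_add] at h2
    exact hmin _ (by omega) h2
  intro i hi j hj he
  rcases Nat.lt_trichotomy i j with h | h | h
  · exact absurd he (key i j h hj)
  · exact h
  · exact absurd he.symm (key j i h hi)

theorem exp_bound : Real.exp 0.1773 ≤ 1.1942 := by
  have h := Real.exp_bound' (x := 0.1773) (by norm_num) (by norm_num) (n := 5) (by norm_num)
  refine le_trans h ?_
  simp only [sum_range_succ, sum_range_zero, Nat.factorial]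
  norm_num

/-- The common part: the bound in terms of `Sm` above `B`. -/
theorem residue_core
    (verified : ∀ x : ℕ, 0 < x → x < 566231040 →
      ∃ N, T^[N] x = 1 ∧ (2 : ℝ) ^ N ≤ 1.2540 * 3 ^ od x N * x)
    {x N : ℕ} (hx : 0 < x) (h1 : T^[N] x = 1) (hmin : ∀ i < N, T^[i] x ≠ 1) :
    ∃ k ≤ N, (∀ i < k, 566231040 ≤ T^[i] x) ∧ T^[k] x < 566231040 ∧
      (2 : ℝ) ^ N ≤ 1.2540 * 3 ^ od x N * x * Real.exp (Sm x k) := by
  classical
  have hex : ∃ k, T^[k] x < 566231040 := ⟨N, by rw [h1]; norm_num⟩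
  set k := Nat.find hex with hk
  have hk1 : T^[k] x < 566231040 := Nat.find_spec hex
  have hkN : k ≤ N := Nat.find_min' hex (by rw [h1]; norm_num)
  have hkB : ∀ i < k, 566231040 ≤ T^[i] x := by
    intro i hi
    have := Nat.find_min hex hi
    omega
  refine ⟨k, hkN, hkB, hk1, ?_⟩
  set y := T^[k] x with hy
  have hyp : 0 < y := iter_pos hx k
  obtain ⟨N', h2, h3⟩ := verified y hyp hk1
  set M := N - k with hM
  have hyM : T^[M] y = 1 := by
    rw [hy, ← iter_add, Nat.sub_add_cancel hkN]; exact h1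
  have hMN' : M ≤ N' := by
    by_contra hc
    push Not at hc
    have : T^[N' + k] x = 1 := by rw [iter_add]; exact h2
    exact hmin (N' + k) (by omega) this
  have hyb : (2 : ℝ) ^ M ≤ 1.2540 * 3 ^ od y M * y := by
    obtain ⟨j, hj⟩ : ∃ j, N' = M + j := ⟨N' - M, by omega⟩
    have h4 : T^[j] 1 = 1 := by
      have : T^[j] (T^[M] y) = 1 := by rw [← iter_add, Nat.add_comm, ← hj]; exact h2
      rwa [hyM] at this
    have h5 := three_pow_le 1 j
    rw [h4, mul_one, mul_one] at h5
    have h5' : (3 : ℝ) ^ od 1 j ≤ 2 ^ j := by exact_mod_cast h5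
    rw [hj, od_add, hyM, pow_add, pow_add] at h3
    have h6 : (0 : ℝ) < 3 ^ od 1 j := by positivity
    have h7 : (2 : ℝ) ^ M * 3 ^ od 1 j ≤ (1.2540 * 3 ^ od y M * y) * 3 ^ od 1 j := by
      calc (2 : ℝ) ^ M * 3 ^ od 1 j ≤ 2 ^ M * 2 ^ j := mul_le_mul_of_nonneg_left h5' (by positivity)
        _ ≤ 1.2540 * (3 ^ od y M * 3 ^ od 1 j) * y := h3
        _ = _ := by ring
    exact le_of_mul_le_mul_right h7 h6
  have h8 := two_pow_le_exp hx k
  rw [← hy] at h8
  have hod : od x N = od x k + od y M := by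
    have e : N = k + M := by omega
    conv_lhs => rw [e]
    rw [od_add]
  have hNe : (2 : ℝ) ^ N = 2 ^ k * 2 ^ M := by
    rw [← pow_add]; congr 1; omega
  rw [hod, pow_add, hNe]
  calc (2 : ℝ) ^ k * 2 ^ M ≤ 2 ^ k * (1.2540 * 3 ^ od y M * y) :=
        mul_le_mul_of_nonneg_left hyb (by positivity)
    _ = 1.2540 * 3 ^ od y M * (2 ^ k * y) := by ring
    _ ≤ 1.2540 * 3 ^ od y M * (3 ^ od x k * x * Real.exp (Sm x k)) :=
        mul_le_mul_of_nonneg_left h8 (by positivity)
    _ = _ := by ring

/-- The main bound: the product over the odd elements of an orbit reaching `1` is below `3/2`. -/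
theorem residue_bound
    (verified : ∀ x : ℕ, 0 < x → x < 566231040 →
      ∃ N, T^[N] x = 1 ∧ (2 : ℝ) ^ N ≤ 1.2540 * 3 ^ od x N * x)
    {x N : ℕ} (hx : 0 < x) (h1 : T^[N] x = 1) (hmin : ∀ i < N, T^[i] x ≠ 1) :
    (2 : ℝ) ^ N ≤ 1.498 * 3 ^ od x N * x := by
  obtain ⟨k, hkN, hkB, hk1, h⟩ := residue_core verified hx h1 hmin
  have hS : Sm x k ≤ 0.1773 := by
    apply Sm_all k x hkB hk1
    intro i hi j hj
    exact iter_inj h1 hmin i (by omega) j (by omega)
  have h9 : Real.exp (Sm x k) ≤ 1.1942 := le_trans (Real.exp_le_exp.mpr hS) exp_bound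
  calc (2 : ℝ) ^ N ≤ 1.2540 * 3 ^ od x N * x * Real.exp (Sm x k) := h
    _ ≤ 1.2540 * 3 ^ od x N * x * 1.1942 := mul_le_mul_of_nonneg_left h9 (by positivity)
    _ = (1.2540 * 1.1942) * (3 ^ od x N * x) := by ring
    _ ≤ 1.498 * (3 ^ od x N * x) := by
        apply mul_le_mul_of_nonneg_right (by norm_num) (by positivity)
    _ = _ := by ring

theorem Sm_le_od {x k : ℕ} (hB : ∀ i < k, 566231040 ≤ T^[i] x) :
    Sm x k ≤ (od x k : ℝ) / (3 * 566231040) := by
  induction k with
  | zero => simp [Sm]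
  | succ n ih =>
      have h6 := ih (fun i hi => hB i (by omega))
      have h7 := hB n (by omega)
      have h7' : (566231040 : ℝ) ≤ ((T^[n] x : ℕ) : ℝ) := by exact_mod_cast h7
      rw [Sm_succ, od_succ]
      rcases Nat.mod_two_eq_zero_or_one (T^[n] x) with e | e
      · rw [e, if_neg (by norm_num)]
        simpa using h6
      · rw [e, if_pos rfl]
        push_cast
        have h8 : 1 / (3 * ((T^[n] x : ℕ) : ℝ)) ≤ 1 / (3 * 566231040) := by
          apply one_div_le_one_div_of_le (by norm_num)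
          linarith
        rw [add_div]
        linarith

theorem od_mono (x : ℕ) {k N : ℕ} (h : k ≤ N) : od x k ≤ od x N := by
  obtain ⟨j, rfl⟩ := Nat.exists_eq_add_of_le h
  rw [od_add]
  omega

theorem exp_bound2 : Real.exp (104000000 / (3 * 566231040)) ≤ 1.0632 := by
  have h0 : (104000000 / (3 * 566231040) : ℝ) ≤ 0.06123 := by norm_num
  refine le_trans (Real.exp_le_exp.mpr h0) ?_
  have h := Real.exp_bound' (x := 0.06123) (by norm_num) (by norm_num) (n := 5) (by norm_num)
  refine le_trans h ?_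
  simp only [sum_range_succ, sum_range_zero, Nat.factorial]
  norm_num

/-- A product of at least `4/3` needs many odd steps. -/
theorem many_odd
    (verified : ∀ x : ℕ, 0 < x → x < 566231040 →
      ∃ N, T^[N] x = 1 ∧ (2 : ℝ) ^ N ≤ 1.2540 * 3 ^ od x N * x)
    {x N : ℕ} (hx : 0 < x) (h1 : T^[N] x = 1) (hmin : ∀ i < N, T^[i] x ≠ 1)
    (h43 : (4 / 3 : ℝ) * (3 ^ od x N * x) ≤ 2 ^ N) : 104000000 < od x N := by
  by_contra hc
  push Not at hc
  obtain ⟨k, hkN, hkB, hk1, h⟩ := residue_core verified hx h1 hmin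
  have h2 := Sm_le_od hkB
  have h3 : (od x k : ℝ) ≤ 104000000 := by
    exact_mod_cast le_trans (od_mono x hkN) hc
  have h4 : Sm x k ≤ 104000000 / (3 * 566231040) :=
    le_trans h2 (div_le_div_of_nonneg_right h3 (by norm_num))
  have h5 := le_trans (Real.exp_le_exp.mpr h4) exp_bound2
  have hp : (0 : ℝ) < 3 ^ od x N * x := by
    have : (0 : ℝ) < x := by exact_mod_cast hx
    positivity
  have h6 : (2 : ℝ) ^ N ≤ (1.2540 * 1.0632) * (3 ^ od x N * x) := by
    calc (2 : ℝ) ^ N ≤ 1.2540 * 3 ^ od x N * x * Real.exp (Sm x k) := h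
      _ ≤ 1.2540 * 3 ^ od x N * x * 1.0632 := mul_le_mul_of_nonneg_left h5 (by positivity)
      _ = _ := by ring
  have h7 : (1.2540 * 1.0632 : ℝ) < 4 / 3 := by norm_num
  have h8 := mul_lt_mul_of_pos_right h7 hp
  linarith

end H1Col
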