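import Mathlib
import Pool.Agent.H1.Col.Reduce

/-! The statement on the differences, from the verified range. -/

namespace H1Col

theorem TT_vals : TT 1 = 0 ∧ TT 2 = 1 ∧ TT 3 = 7 ∧ TT 4 = 2 ∧ TT 5 = 5 ∧ TT 6 = 8 := by
  refine ⟨?_, ?_, ?_, ?_, ?_, ?_⟩ <;> apply TT_eq <;> decide

/-- Two-sided bounds for one orbit. -/
theorem orbit_bounds
    (verified : ∀ x : ℕ, 0 < x → x < 566231040 →
      ∃ N, T^[N] x = 1 ∧ (2 : ℝ) ^ N ≤ 1.2540 * 3 ^ od x N * x)
    {x : ℕ} (hx : 0 < x) (h : Reaches x) :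
    ∃ N, T^[N] x = 1 ∧ (∀ i < N, T^[i] x ≠ 1) ∧ TT x = N + od x N ∧
      (3 : ℝ) ^ od x N * x ≤ 2 ^ N ∧ (2 : ℝ) ^ N ≤ 1.498 * (3 ^ od x N * x) ∧
      (x < 566231040 → (2 : ℝ) ^ N ≤ 1.2540 * (3 ^ od x N * x)) := by
  obtain ⟨N, h1, h2, h3⟩ := TT_spec hx h
  refine ⟨N, h1, h2, h3, ?_, ?_, ?_⟩
  · have h4 := three_pow_le x N
    rw [h1, mul_one] at h4
    exact_mod_cast h4
  · have := residue_bound verified hx h1 h2
    linarith
  · intro hlt
    obtain ⟨k, hkN, hkB, hk1, h4⟩ := residue_core verified hx h1 h2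
    have hk0 : k = 0 := by
      by_contra hc
      have := hkB 0 (by omega)
      simp only [Function.iterate_zero, id_eq] at this
      omega
    subst hk0
    have : Sm x 0 = 0 := by simp [Sm]
    rw [this, Real.exp_zero, mul_one] at h4
    linarith

theorem core
    (verified : ∀ x : ℕ, 0 < x → x < 566231040 →
      ∃ N, T^[N] x = 1 ∧ (2 : ℝ) ^ N ≤ 1.2540 * 3 ^ od x N * x)
    {n : ℕ} (hn : 1 ≤ n) (hr1 : Reaches n) (hr2 : Reaches (n + 1))
    (ha1 : (TT (n + 1) : ℤ) - TT n ≠ 1) (ha3 : (TT (n + 1) : ℤ) - TT n ≠ 3)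
    (ha6 : (TT (n + 1) : ℤ) - TT n ≠ 6) :
    (∃ x y : ℕ, ((TT (n + 1) : ℤ) - TT n).natAbs = 5 * x + 8 * y) ∨
    ((TT (n + 1) : ℤ) - TT n = -3 ∧ 5 * 10 ^ 8 < n ∧ 26 * 10 ^ 7 < TT n) := by
  obtain ⟨t1, t2, t3, t4, t5, t6⟩ := TT_vals
  by_cases hsmall : n ≤ 5
  · have : n = 1 ∨ n = 2 ∨ n = 3 ∨ n = 4 ∨ n = 5 := by omega
    rcases this with rfl | rfl | rfl | rfl | rfl
    · rw [show (1 + 1 : ℕ) = 2 by norm_num, t1, t2] at ha1; norm_num at ha1
    · rw [show (2 + 1 : ℕ) = 3 by norm_num, t2, t3] at ha6; norm_num at ha6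
    · left
      rw [show (3 + 1 : ℕ) = 4 by norm_num, t3, t4]
      exact ⟨1, 0, by norm_num⟩
    · rw [show (4 + 1 : ℕ) = 5 by norm_num, t4, t5] at ha3; norm_num at ha3
    · rw [show (5 + 1 : ℕ) = 6 by norm_num, t5, t6] at ha3; norm_num at ha3
  · push Not at hsmall
    obtain ⟨N, h1, h2, h3, h4, h5, h6⟩ := orbit_bounds verified (x := n) (by omega) hr1
    obtain ⟨N', g1, g2, g3, g4, g5, g6⟩ := orbit_bounds verified (x := n + 1) (by omega) hr2
    have hn' : (6 : ℝ) ≤ n := by exact_mod_cast hsmall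
    have hp : (0 : ℝ) < 3 ^ od n N := by positivity
    have hp' : (0 : ℝ) < 3 ^ od (n + 1) N' := by positivity
    push_cast at g4 g5 g6
    have hup : (2 : ℝ) ^ N < 3 / 2 * (3 ^ od n N * n) := by
      have : (0 : ℝ) < 3 ^ od n N * n := by positivity
      nlinarith
    have hup' : (2 : ℝ) ^ N' < 3 / 2 * (3 ^ od (n + 1) N' * n) := by
      by_cases hB : n + 1 < 566231040
      · have h7 := g6 hB
        have h8 : (1.2540 : ℝ) * (n + 1) < 3 / 2 * n := by linarith
        have h9 := mul_lt_mul_of_pos_left h8 hp'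
        linarith
      · have hB' : (566231039 : ℝ) ≤ n := by
          have : 566231039 ≤ n := by omega
          exact_mod_cast this
        have h8 : (1.498 : ℝ) * (n + 1) < 3 / 2 * n := by linarith
        have h9 := mul_lt_mul_of_pos_left h8 hp'
        linarith
    have hmain := arith (n := n) (N := N) (p := od n N) (N' := N') (p' := od (n + 1) N')
      (by omega) h4 hup g4 hup'
    have e : (TT (n + 1) : ℤ) - TT n = (N' : ℤ) + (od (n + 1) N' : ℕ) - (N + (od n N : ℕ)) := by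
      rw [h3, g3]; push_cast; ring
    rw [e]
    rcases hmain with h | h | ⟨h, h43⟩
    · left; exact h
    · exfalso; exact ha3 (by rw [e]; exact h)
    · right
      refine ⟨h, ?_, ?_⟩
      · by_contra hc
        push Not at hc
        have h6' := h6 (lt_of_le_of_lt hc (by norm_num))
        have hpos : (0 : ℝ) < 3 ^ od n N * n := by positivity
        linarith
      · have h7 := many_odd verified (x := n) (by omega) h1 h2 h43
        have h8 : 3 * od n N ≤ 2 * N := by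
          have h9 : (3 : ℝ) ^ od n N ≤ 2 ^ N := by nlinarith
          have h10 : 3 ^ od n N ≤ 2 ^ N := by exact_mod_cast h9
          have h11 : 2 ^ (3 * od n N) ≤ 2 ^ (2 * N) := by
            calc 2 ^ (3 * od n N) = 8 ^ od n N := by rw [pow_mul]; norm_num
              _ ≤ 9 ^ od n N := Nat.pow_le_pow_left (by norm_num) _
              _ = (3 ^ od n N) ^ 2 := by rw [← pow_mul, mul_comm, pow_mul]; norm_num
              _ ≤ (2 ^ N) ^ 2 := Nat.pow_le_pow_left h10 2
              _ = 2 ^ (2 * N) := by rw [← pow_mul, mul_comm]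
          exact (Nat.pow_le_pow_iff_right (by norm_num)).mp h11
        rw [h3]
        omega

end H1Col
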